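import Mathlib
import Pool.Agent.Q220.Grp.Prob

/-!
Clusters of a configuration on the pairs of a set of vertices, inside a window.
-/

set_option autoImplicit false
open MeasureTheory ProbabilityTheory
open scoped ENNReal NNReal BigOperators Pointwise

namespace Pool.Agent.Q220.Grp

/-- unordered pairs of distinct elements -/
abbrev Pair (V : Type*) : Type _ := {e : Sym2 V // ¬ e.IsDiag}

section

variable {V : Type*}

/-- the pair `{x, y}` is open -/
def Opn (ω : Pair V → ℕ) (x y : V) : Prop := ∃ hne : ¬ (s(x, y)).IsDiag, 0 < ω ⟨s(x, y), hne⟩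

theorem Opn.symm {ω : Pair V → ℕ} {x y : V} (h : Opn ω x y) : Opn ω y x := by
  obtain ⟨hne, hω⟩ := h
  have e : (s(y, x) : Sym2 V) = s(x, y) := Sym2.eq_swap
  refine ⟨by rwa [e], ?_⟩
  have : (⟨s(y, x), by rwa [e]⟩ : Pair V) = ⟨s(x, y), hne⟩ := Subtype.ext e
  rw [this]; exact hω

/-- a step inside the window `W` -/
def stepR (ω : Pair V → ℕ) (W : Set V) (x y : V) : Prop := x ∈ W ∧ y ∈ W ∧ Opn ω x y

/-- the cluster of the set `A` inside the window `W` -/
def clu (ω : Pair V → ℕ) (W A : Set V) : Set V :=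
  {y | ∃ x ∈ A, Relation.ReflTransGen (stepR ω W) x y}

theorem subset_clu (ω : Pair V → ℕ) (W A : Set V) : A ⊆ clu ω W A :=
  fun x hx => ⟨x, hx, Relation.ReflTransGen.refl⟩

theorem clu_subset (ω : Pair V → ℕ) (W A : Set V) (hA : A ⊆ W) : clu ω W A ⊆ W := by
  rintro y ⟨x, hx, hxy⟩
  induction hxy with
  | refl => exact hA hx
  | tail _ h _ => exact h.2.1

theorem stepR_mono {ω : Pair V → ℕ} {W W' : Set V} (h : W ⊆ W') {x y : V}
    (hxy : stepR ω W x y) : stepR ω W' x y := ⟨h hxy.1, h hxy.2.1, hxy.2.2⟩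

theorem clu_mono {ω : Pair V → ℕ} {W W' A A' : Set V} (h : W ⊆ W') (hA : A ⊆ A') :
    clu ω W A ⊆ clu ω W' A' := by
  rintro y ⟨x, hx, hxy⟩
  exact ⟨x, hA hx, Relation.ReflTransGen.mono (fun _ _ => stepR_mono h) _ _ hxy⟩

theorem clu_trans {ω : Pair V → ℕ} {W A : Set V} {x y : V} (hx : x ∈ clu ω W A)
    (h : Relation.ReflTransGen (stepR ω W) x y) : y ∈ clu ω W A := by
  obtain ⟨z, hz, hzx⟩ := hx
  exact ⟨z, hz, hzx.trans h⟩

/-- the pairs inside a window -/
def pairsIn (W : Set V) : Set (Pair V) := {e | ∀ v ∈ e.1, v ∈ W}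

theorem pairsIn_finite {W : Set V} (hW : W.Finite) : (pairsIn W).Finite := by
  have h1 : ((fun p : V × V => s(p.1, p.2)) '' (W ×ˢ W)).Finite := (hW.prod hW).image _
  refine Set.Finite.of_finite_image (f := Subtype.val) ?_ Subtype.val_injective.injOn
  refine h1.subset ?_
  rintro _ ⟨e, he, rfl⟩
  obtain ⟨e, hne⟩ := e
  induction e using Sym2.ind with
  | _ x y =>
    refine ⟨(x, y), ⟨he x (Sym2.mem_mk_left x y), he y (Sym2.mem_mk_right x y)⟩, rfl⟩

theorem pairsIn_disjoint {W W' : Set V} (h : Disjoint W W') : Disjoint (pairsIn W) (pairsIn W') := by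
  rw [Set.disjoint_left]
  rintro ⟨e, hne⟩ h1 h2
  induction e using Sym2.ind with
  | _ x y =>
    exact Set.disjoint_left.mp h (h1 x (Sym2.mem_mk_left x y)) (h2 x (Sym2.mem_mk_left x y))

theorem opn_congr {ω ω' : Pair V → ℕ} {x y : V}
    (h : ∀ e : Pair V, e.1 = s(x, y) → ω e = ω' e) (hxy : Opn ω x y) : Opn ω' x y := by
  obtain ⟨hne, hω⟩ := hxy
  exact ⟨hne, by rw [← h _ rfl]; exact hω⟩

theorem clu_congr {ω ω' : Pair V → ℕ} {W : Set V} (h : ∀ e ∈ pairsIn W, ω e = ω' e) (A : Set V) :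
    clu ω W A = clu ω' W A := by
  have key : ∀ ω ω' : Pair V → ℕ, (∀ e ∈ pairsIn W, ω e = ω' e) → ∀ x y,
      stepR ω W x y → stepR ω' W x y := by
    rintro ω ω' h x y ⟨hx, hy, ho⟩
    refine ⟨hx, hy, opn_congr (fun e he => h e ?_) ho⟩
    intro v hv
    rw [he, Sym2.mem_iff] at hv
    rcases hv with rfl | rfl
    · exact hx
    · exact hy
  ext y
  constructor
  · rintro ⟨x, hx, hxy⟩
    exact ⟨x, hx, Relation.ReflTransGen.mono (key ω ω' h) _ _ hxy⟩
  · rintro ⟨x, hx, hxy⟩
    exact ⟨x, hx, Relation.ReflTransGen.mono (key ω' ω fun e he => (h e he).symm) _ _ hxy⟩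

theorem dep_clu (W A : Set V) (p : Set V → Prop) :
    Dep (pairsIn W) {ω | p (clu ω W A)} := by
  intro ω ω' h hω
  rw [Set.mem_ofPred_eq] at hω ⊢
  rwa [← clu_congr h A]

theorem dep_opn (x y : V) : Dep {e : Pair V | e.1 = s(x, y)} {ω | Opn ω x y} := by
  intro ω ω' h hω
  exact opn_congr (fun e he => h e he) hω

end

section

variable {Γ : Type*} [Group Γ] [Countable Γ]

/-- every vertex has, with probability at least `θ`, a cluster of size at least `K` inside its
translate of the window `F` -/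
def Good (m : Pair Γ → Measure ℕ) (F : Set Γ) (K : ℕ) (θ : ℝ≥0∞) : Prop :=
  ∀ x : Γ, θ ≤ Measure.infinitePi m {ω | K ≤ (clu ω (x • F) {x}).ncard}

variable (m : Pair Γ → Measure ℕ) [∀ e, IsProbabilityMeasure (m e)]

omit [Countable Γ] in
theorem mem_smul_mul {F : Set Γ} {x s b : Γ} (hs : s ∈ x • F) :
    (s * b) • F ⊆ x • (F * {b} * F) := by
  rintro _ ⟨g, hg, rfl⟩
  obtain ⟨f, hf, rfl⟩ := hs
  refine ⟨f * b * g, ⟨f * b, ⟨f, hf, b, rfl, rfl⟩, g, hg, rfl⟩, ?_⟩
  simp [mul_assoc]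

/-- one block of the merging step -/
theorem block {F : Set Γ} (hF : F.Finite) (h1 : (1 : Γ) ∈ F) {K : ℕ} {θ : ℝ≥0∞}
    (hG : Good m F K θ) (b : Γ) (hb1 : Disjoint F (F * {b} * F))
    (a : ℝ) (hm : ∀ e : Pair Γ, ∀ g : Γ, e.1 = s(g, g * b) → m e {0} ≤ ENNReal.ofReal (Real.exp (-a)))
    (x : Γ) (T : Finset Γ) (hT : (T : Set Γ) ⊆ x • F) (hTK : K ≤ T.card) (ha : 0 ≤ a) :
    θ * (1 - ENNReal.ofReal (Real.exp (-a * K))) ≤ Measure.infinitePi m
      {ω | ∃ s ∈ T, Opn ω s (s * b) ∧ K ≤ (clu ω ((s * b) • F) {s * b}).ncard} := by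
  classical
  have hdis : Disjoint (x • F) (x • (F * {b} * F)) := by
    rw [Set.disjoint_left] at hb1 ⊢
    rintro _ ⟨f, hf, rfl⟩ ⟨g, hg, hfg⟩
    simp only [smul_eq_mul, mul_right_inj] at hfg
    subst hfg
    exact hb1 hf hg
  have hsb : ∀ s ∈ x • F, s * b ∈ x • (F * {b} * F) := fun s hs =>
    mem_smul_mul hs ⟨1, h1, by simp⟩
  have hFb : (x • (F * {b} * F)).Finite := by
    refine Set.Finite.smul_set ?_
    exact (hF.mul (Set.finite_singleton b)).mul hF
  have hd1 : ({e : Pair Γ | ∃ s ∈ T, e.1 = s(s, s * b)}).Finite := by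
    have : {e : Pair Γ | ∃ s ∈ T, e.1 = s(s, s * b)} = ⋃ s ∈ T, {e : Pair Γ | e.1 = s(s, s * b)} := by
      ext e; simp
    rw [this]
    refine Set.Finite.biUnion T.finite_toSet fun s _ => ?_
    refine Set.Subsingleton.finite ?_
    intro e he e' he'
    exact Subtype.ext (he.trans he'.symm)
  have hgh := decouple_ge m (D1 := {e : Pair Γ | ∃ s ∈ T, e.1 = s(s, s * b)})
    (D2 := pairsIn (x • (F * {b} * F))) hd1 (pairsIn_finite hFb) (by
      rw [Set.disjoint_left]
      rintro e ⟨s, hs, he⟩ h2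
      exact Set.disjoint_left.mp hdis (hT hs) (h2 s (by rw [he]; exact Sym2.mem_mk_left _ _)))
    (fun ω => T.filter fun s => Opn ω s (s * b)) (by
      intro u ω ω' h hω
      rw [Set.mem_ofPred_eq] at hω ⊢
      rw [← hω]
      refine Finset.filter_congr fun s hs => ⟨fun h' => ?_, fun h' => ?_⟩
      · exact opn_congr (fun e he => (h e ⟨s, hs, he⟩).symm) h'
      · exact opn_congr (fun e he => (h e ⟨s, hs, he⟩)) h')
    (fun U => {ω | ∃ s ∈ U, s ∈ T ∧ K ≤ (clu ω ((s * b) • F) {s * b}).ncard}) (by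
      intro U
      have : {ω : Pair Γ → ℕ | ∃ s ∈ U, s ∈ T ∧ K ≤ (clu ω ((s * b) • F) {s * b}).ncard}
          = ⋃ s, ⋃ _ : s ∈ U, ⋃ _ : s ∈ T, {ω | K ≤ (clu ω ((s * b) • F) {s * b}).ncard} := by
        ext ω; simp only [Set.mem_ofPred_eq, Set.mem_iUnion, exists_prop]
      rw [this]
      refine Dep.iUnion fun s => Dep.iUnion fun _ => Dep.iUnion fun hs => ?_
      refine (dep_clu ((s * b) • F) {s * b} (fun C => K ≤ C.ncard)).mono ?_
      intro e he v hv
      exact mem_smul_mul (hT hs) (he v hv))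
    {U | U.Nonempty ∧ U ⊆ T} θ (by
      rintro U ⟨⟨s, hs⟩, hUT⟩
      refine (hG (s * b)).trans (measure_mono ?_)
      intro ω hω
      exact ⟨s, hs, hUT hs, hω⟩)
  refine le_trans ?_ (hgh.trans (measure_mono ?_))
  · refine mul_le_mul_right ?_ _
    have e1 : {ω : Pair Γ → ℕ | (T.filter fun s => Opn ω s (s * b)) ∈ {U : Finset Γ | U.Nonempty ∧ U ⊆ T}}
        = (⋂ s ∈ T, {ω | Opn ω s (s * b)}ᶜ)ᶜ := by
      ext ω
      simp only [Set.mem_ofPred_eq, Set.mem_compl_iff, Set.mem_iInter, not_forall, not_not,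
        Finset.filter_subset, and_true]
      constructor
      · rintro ⟨s, hs⟩
        rw [Finset.mem_filter] at hs
        exact ⟨s, hs.1, hs.2⟩
      · rintro ⟨s, hs, h⟩
        exact ⟨s, Finset.mem_filter.mpr ⟨hs, h⟩⟩
    have hdep : ∀ s ∈ T, Dep {e : Pair Γ | e.1 = s(s, s * b)} ({ω : Pair Γ → ℕ | Opn ω s (s * b)}ᶜ) :=
      fun s _ => (dep_opn s (s * b)).compl
    have hfin : ∀ s ∈ T, ({e : Pair Γ | e.1 = s(s, s * b)}).Finite := fun s _ =>
      Set.Subsingleton.finite fun e he e' he' => Subtype.ext (he.trans he'.symm)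
    have hprod := Dep.prod m T (fun s => {e : Pair Γ | e.1 = s(s, s * b)}) hfin (by
      intro s hs s' hs' hne
      rw [Set.disjoint_left]
      intro e he he'
      have h3 : s(s, s * b) = s(s', s' * b) := he.symm.trans he'
      rw [Sym2.eq_iff] at h3
      rcases h3 with h3 | h3
      · exact hne h3.1
      · have h4 := hsb s' (hT hs')
        rw [← h3.1] at h4
        exact Set.disjoint_left.mp hdis (hT hs) h4)
      (fun s => {ω : Pair Γ → ℕ | Opn ω s (s * b)}ᶜ) hdep
    rw [e1, measure_compl, measure_univ, hprod]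
    · refine tsub_le_tsub_left ?_ _
      calc ∏ s ∈ T, Measure.infinitePi m {ω : Pair Γ → ℕ | Opn ω s (s * b)}ᶜ
          ≤ ∏ s ∈ T, ENNReal.ofReal (Real.exp (-a)) := by
            refine Finset.prod_le_prod' fun s hs => ?_
            have hne : ¬ (s(s, s * b)).IsDiag := by
              rw [Sym2.mk_isDiag_iff]
              intro h3
              have h4 := hsb s (hT hs)
              rw [← h3] at h4
              exact Set.disjoint_left.mp hdis (hT hs) h4
            have e2 : {ω : Pair Γ → ℕ | Opn ω s (s * b)}ᶜ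
                = (fun ω : Pair Γ → ℕ => ω ⟨s(s, s * b), hne⟩) ⁻¹' {0} := by
              ext ω
              simp only [Set.mem_compl_iff, Set.mem_ofPred_eq, Set.mem_preimage,
                Set.mem_singleton_iff, Opn, not_exists, not_lt, Nat.le_zero]
              exact ⟨fun h => h hne, fun h _ => h⟩
            rw [e2]
            have hmp := measurePreserving_eval_infinitePi m ⟨s(s, s * b), hne⟩
            rw [hmp.measure_preimage (MeasurableSet.singleton _).nullMeasurableSet]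
            exact hm _ s rfl
        _ = ENNReal.ofReal (Real.exp (-a)) ^ T.card := by rw [Finset.prod_const]
        _ ≤ ENNReal.ofReal (Real.exp (-a)) ^ K := by
            refine pow_le_pow_right_of_le_one' ?_ hTK
            rw [← ENNReal.ofReal_one]
            refine ENNReal.ofReal_le_ofReal ?_
            rw [Real.exp_le_one_iff]
            linarith
        _ = ENNReal.ofReal (Real.exp (-a * K)) := by
            rw [← ENNReal.ofReal_pow (Real.exp_pos _).le, ← Real.exp_nat_mul]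
            congr 2
            ring
    · refine Dep.measurable (D := ⋃ s ∈ T, {e : Pair Γ | e.1 = s(s, s * b)}) ?_ ?_
      · exact Set.Finite.biUnion T.finite_toSet hfin
      · exact Dep.iInter fun s => Dep.iInter fun hs => (hdep s hs).mono
          (Set.subset_biUnion_of_mem (u := fun s => {e : Pair Γ | e.1 = s(s, s * b)}) hs)
    · exact measure_ne_top _ _
  · rintro ω ⟨_, s, hs, hsT, hK⟩
    rw [Finset.mem_filter] at hs
    exact ⟨s, hsT, hs.2, hK⟩

end

end Pool.Agent.Q220.Grp
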