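import Mathlib
import Pool.Agent.Q220.Grp.Clu

/-!
Exploration of a cluster in a graph of large degree: comparison with a branching process.
-/

set_option autoImplicit false
open MeasureTheory ProbabilityTheory
open scoped ENNReal NNReal BigOperators Pointwise

namespace Pool.Agent.Q220.Grp

variable {Γ : Type*} [Group Γ] [Countable Γ]

variable (m : Pair Γ → Measure ℕ) [∀ e, IsProbabilityMeasure (m e)]

/-- the generating function of the number of open pairs `{x, y}`, `y ∈ Y` -/
theorem genfun (x : Γ) (Y : Finset Γ) (hx : x ∉ Y) (ρ q : ℝ≥0∞) (hρ1 : ρ ≤ 1)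
    (hm : ∀ y ∈ Y, ∀ e : Pair Γ, e.1 = s(x, y) → m e {0} ≤ q) [∀ ω : Pair Γ → ℕ, ∀ y, Decidable (Opn ω x y)] :
    ∫⁻ ω, ρ ^ (Y.filter fun y => Opn ω x y).card ∂(Measure.infinitePi m)
      ≤ (ρ + (1 - ρ) * q) ^ Y.card := by
  classical
  have hne : ∀ y : {y // y ∈ Y}, ¬ (s(x, y.1)).IsDiag := by
    rintro ⟨y, hy⟩ h
    rw [Sym2.mk_isDiag_iff] at h
    exact hx (h ▸ hy)
  set ey : {y // y ∈ Y} → Pair Γ := fun y => ⟨s(x, y.1), hne y⟩ with hey
  have hinj : Function.Injective ey := by
    intro y y' h
    have h1 : s(x, y.1) = s(x, y'.1) := congrArg Subtype.val h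
    exact Subtype.ext (Sym2.congr_right.mp h1)
  set X : Pair Γ → (Pair Γ → ℕ) → ℝ≥0∞ := fun e ω => if 0 < ω e then ρ else 1 with hX
  have hXm : ∀ e, Measurable (X e) := by
    intro e
    have h1 : Measurable (fun n : ℕ => if 0 < n then ρ else 1) := measurable_from_top
    exact h1.comp (measurable_pi_apply e)
  have hXi : iIndepFun X (Measure.infinitePi m) :=
    iIndepFun_infinitePi (X := fun _ n => if 0 < n then ρ else 1) (fun _ => measurable_from_top)
  have e1 : ∀ ω : Pair Γ → ℕ, ρ ^ (Y.filter fun y => Opn ω x y).card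
      = ∏ e ∈ Y.attach.image ey, X e ω := by
    intro ω
    rw [Finset.prod_image hinj.injOn]
    have h2 : ∀ y : {y // y ∈ Y}, X (ey y) ω = if Opn ω x y.1 then ρ else 1 := by
      intro y
      simp only [hX, hey]
      refine if_congr ⟨fun h => ⟨hne y, h⟩, fun h => ?_⟩ rfl rfl
      obtain ⟨_, h⟩ := h
      exact h
    rw [Finset.prod_congr rfl fun y _ => h2 y,
      Finset.prod_attach Y (fun y => if Opn ω x y then ρ else 1), Finset.prod_ite]
    simp
  simp_rw [e1]
  rw [lintegral_prod_eq_prod_lintegral_of_indepFun _ X hXi hXm, Finset.prod_image hinj.injOn,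
    ← Finset.card_attach (s := Y), ← Finset.prod_const]
  refine Finset.prod_le_prod' fun y _ => ?_
  have hmp := measurePreserving_eval_infinitePi m (ey y)
  have e2 : ∫⁻ ω, X (ey y) ω ∂(Measure.infinitePi m)
      = ∫⁻ n, (if 0 < n then ρ else 1) ∂(m (ey y)) := by
    rw [← hmp.map_eq, lintegral_map measurable_from_top hmp.measurable]
  rw [e2]
  have e3 : (fun n : ℕ => if 0 < n then ρ else (1 : ℝ≥0∞)) = fun n => ρ + (1 - ρ) * ({0} : Set ℕ).indicator 1 n := by
    funext n
    rcases Nat.eq_zero_or_pos n with h | h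
    · subst h; simp [add_tsub_cancel_of_le hρ1]
    · simp [h, h.ne']
  rw [e3, lintegral_add_left measurable_const, lintegral_const, measure_univ, mul_one,
    lintegral_const_mul _ (measurable_from_top), lintegral_indicator_one (MeasurableSet.singleton 0)]
  gcongr
  exact hm y.1 y.2 (ey y) rfl

/-- comparison with a branching process, `ρ` being a super-solution of the extinction equation -/
theorem explore (B0 : Finset Γ) (ρ q : ℝ≥0∞) (hρ1 : ρ ≤ 1) (hq1 : q ≤ 1) (n0 L : ℕ)
    (hB : n0 + L ≤ B0.card)
    (hm : ∀ b ∈ B0, ∀ e : Pair Γ, ∀ g : Γ, e.1 = s(g, g * b) → m e {0} ≤ q)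
    (hρ : (ρ + (1 - ρ) * q) ^ n0 ≤ ρ) (l : ℕ) :
    ∀ (W : Set Γ) (_ : W.Finite) (E A : Finset Γ) (_ : (A : Set Γ) ⊆ W) (_ : Disjoint A E)
      (_ : ∀ a ∈ A, a • (insert 1 (B0 : Set Γ)) ^ l ⊆ W) (_ : E.card + l ≤ L),
      Measure.infinitePi m {ω | (clu ω (W \ E) A).ncard < l} ≤ ρ ^ A.card := by
  classical
  induction l with
  | zero =>
    intro W hW E A hAW hAE hA hE
    simp
  | succ l ih =>
    intro W hW E A hAW hAE hA hE
    rcases A.eq_empty_or_nonempty with rfl | ⟨x, hx⟩
    · simpa using prob_le_one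
    have hAWE : (A : Set Γ) ⊆ W \ E := fun y hy =>
      ⟨hAW hy, fun h => Finset.disjoint_left.mp hAE hy h⟩
    rcases le_or_gt (l + 1) A.card with hAc | hAc
    · have h0 : {ω : Pair Γ → ℕ | (clu ω (W \ E) A).ncard < l + 1} = ∅ := by
        rw [Set.eq_empty_iff_forall_notMem]
        intro ω hω
        have hfin : (clu ω (W \ E) (A : Set Γ)).Finite :=
          (hW.subset Set.sdiff_subset).subset (clu_subset _ _ _ hAWE)
        have := Set.ncard_le_ncard (subset_clu ω (W \ E) A) hfin
        rw [Set.ncard_coe_finset] at this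
        have h3 : (clu ω (W \ E) A).ncard < l + 1 := hω
        omega
      rw [h0]
      simp
    -- explore `x`
    have hxE : x ∉ E := fun h => Finset.disjoint_left.mp hAE hx h
    set E' : Finset Γ := insert x E with hE'
    set Y : Finset Γ := (B0.image fun b => x * b) \ (E ∪ A) with hY
    have hxY : x ∉ Y := by
      rw [hY, Finset.mem_sdiff]
      rintro ⟨_, h⟩
      exact h (Finset.mem_union_right _ hx)
    have hYE : ∀ y ∈ Y, y ∉ E := fun y hy h =>
      (Finset.mem_sdiff.mp hy).2 (Finset.mem_union_left _ h)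
    have hYA : ∀ y ∈ Y, y ∉ A := fun y hy h =>
      (Finset.mem_sdiff.mp hy).2 (Finset.mem_union_right _ h)
    have hYB : ∀ y ∈ Y, ∃ b ∈ B0, x * b = y := fun y hy =>
      Finset.mem_image.mp (Finset.mem_sdiff.mp hy).1
    have hYc : n0 ≤ Y.card := by
      have h1 : (B0.image fun b => x * b).card = B0.card :=
        Finset.card_image_of_injective _ (mul_right_injective x)
      have h2 := Finset.le_card_sdiff (E ∪ A) (B0.image fun b => x * b)
      have h3 := Finset.card_union_le E A
      rw [← hY] at h2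
      omega
    have hYW : ∀ y ∈ Y, ∀ g ∈ (insert 1 (B0 : Set Γ)) ^ l, y * g ∈ W := by
      intro y hy g hg
      obtain ⟨b, hb, rfl⟩ := hYB y hy
      refine hA x hx ⟨b * g, ?_, by simp [mul_assoc]⟩
      rw [pow_succ']
      exact ⟨b, Or.inr hb, g, hg, rfl⟩
    have hone : (1 : Γ) ∈ (insert 1 (B0 : Set Γ)) ^ l := Set.one_mem_pow (Or.inl rfl)
    have hYW' : ∀ y ∈ Y, y ∈ W := fun y hy => by simpa using hYW y hy 1 hone
    -- the new active set
    set X : (Pair Γ → ℕ) → Finset Γ := fun ω => Y.filter fun y => Opn ω x y with hX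
    set R : Finset Γ → Set (Pair Γ → ℕ) := fun N =>
      {ω | (clu ω (W \ E') ((A.erase x ∪ N : Finset Γ) : Set Γ)).ncard < l} with hR
    have hsub : {ω : Pair Γ → ℕ | (clu ω (W \ E) A).ncard < l + 1} ⊆ {ω | ω ∈ R (X ω)} := by
      intro ω hω
      have hω' : (clu ω (W \ E) A).ncard < l + 1 := hω
      show (clu ω (W \ E') ((A.erase x ∪ X ω : Finset Γ) : Set Γ)).ncard < l
      have hA' : ((A.erase x ∪ X ω : Finset Γ) : Set Γ) ⊆ W \ E' := by
        intro y hy
        rw [Finset.mem_coe, Finset.mem_union] at hy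
        rcases hy with hy | hy
        · rw [Finset.mem_erase] at hy
          refine ⟨hAW hy.2, fun h => ?_⟩
          rw [Finset.mem_coe, hE', Finset.mem_insert] at h
          rcases h with h | h
          · exact hy.1 h
          · exact Finset.disjoint_left.mp hAE hy.2 h
        · have hy' := (Finset.mem_filter.mp hy).1
          refine ⟨hYW' y hy', fun h => ?_⟩
          rw [Finset.mem_coe, hE', Finset.mem_insert] at h
          rcases h with h | h
          · exact hxY (h ▸ hy')
          · exact hYE y hy' h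
      have hc : clu ω (W \ E') ((A.erase x ∪ X ω : Finset Γ) : Set Γ) ⊆ W \ E' :=
        clu_subset _ _ _ hA'
      have hxc : x ∉ clu ω (W \ E') ((A.erase x ∪ X ω : Finset Γ) : Set Γ) := fun h =>
        (hc h).2 (by simp [hE'])
      have hEE' : W \ (E' : Set Γ) ⊆ W \ E := by
        refine Set.sdiff_subset_sdiff_right ?_
        intro z hz
        simp only [hE', Finset.coe_insert]
        exact Or.inr hz
      have hc2 : insert x (clu ω (W \ E') ((A.erase x ∪ X ω : Finset Γ) : Set Γ))
          ⊆ clu ω (W \ E) A := by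
        intro z hz
        rcases hz with rfl | ⟨y, hy, hyz⟩
        · exact subset_clu _ _ _ hx
        · have hy2 : y ∈ clu ω (W \ E) A := by
            rw [Finset.mem_coe, Finset.mem_union] at hy
            rcases hy with hy | hy
            · exact subset_clu _ _ _ (Finset.mem_of_mem_erase hy)
            · have hy' := Finset.mem_filter.mp hy
              refine ⟨x, hx, Relation.ReflTransGen.single ⟨hAWE hx, ?_, hy'.2⟩⟩
              exact ⟨hYW' y hy'.1, hYE y hy'.1⟩
          exact clu_trans hy2 (Relation.ReflTransGen.mono (fun _ _ => stepR_mono hEE') _ _ hyz)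
      have hfin : (clu ω (W \ E) (A : Set Γ)).Finite :=
        (hW.subset Set.sdiff_subset).subset (clu_subset _ _ _ hAWE)
      have h5 := Set.ncard_le_ncard hc2 hfin
      rw [Set.ncard_insert_of_notMem hxc (hfin.subset ((Set.subset_insert _ _).trans hc2))] at h5
      omega
    refine (measure_mono hsub).trans ?_
    have hdY : ({e : Pair Γ | ∃ y ∈ Y, e.1 = s(x, y)}).Finite := by
      have : {e : Pair Γ | ∃ y ∈ Y, e.1 = s(x, y)} = ⋃ y ∈ Y, {e : Pair Γ | e.1 = s(x, y)} := by
        ext e; simp only [Set.mem_ofPred_eq, Set.mem_iUnion, exists_prop]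
      rw [this]
      refine Set.Finite.biUnion Y.finite_toSet fun s _ => ?_
      exact Set.Subsingleton.finite fun e he e' he' => Subtype.ext (he.trans he'.symm)
    rw [decouple m (D1 := {e : Pair Γ | ∃ y ∈ Y, e.1 = s(x, y)}) (D2 := pairsIn (W \ (E' : Set Γ)))
      hdY (pairsIn_finite (hW.subset Set.sdiff_subset)) (by
        rw [Set.disjoint_left]
        rintro e ⟨y, _, he⟩ h2
        exact (h2 x (by rw [he]; exact Sym2.mem_mk_left _ _)).2 (by simp [hE'])) X (by
        intro u ω ω' h hω
        rw [Set.mem_ofPred_eq] at hω ⊢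
        rw [← hω]
        refine Finset.filter_congr fun y hy => ⟨fun h' => ?_, fun h' => ?_⟩
        · exact opn_congr (fun e he => (h e ⟨y, hy, he⟩).symm) h'
        · exact opn_congr (fun e he => (h e ⟨y, hy, he⟩)) h') R (fun N =>
          dep_clu _ _ (fun C => C.ncard < l))]
    calc ∫⁻ ω, Measure.infinitePi m (R (X ω)) ∂(Measure.infinitePi m)
        ≤ ∫⁻ ω, ρ ^ (A.card - 1) * ρ ^ (X ω).card ∂(Measure.infinitePi m) := by
          refine lintegral_mono fun ω => ?_
          have hdj : Disjoint (A.erase x) (X ω) := by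
            rw [Finset.disjoint_left]
            intro y hy hy'
            exact hYA y (Finset.mem_filter.mp hy').1 (Finset.mem_of_mem_erase hy)
          rw [← pow_add, ← Finset.card_erase_of_mem hx, ← Finset.card_union_of_disjoint hdj]
          refine ih W hW E' (A.erase x ∪ X ω) ?_ ?_ ?_ ?_
          · intro y hy
            rw [Finset.mem_coe, Finset.mem_union] at hy
            rcases hy with hy | hy
            · exact hAW (Finset.mem_of_mem_erase hy)
            · exact hYW' y (Finset.mem_filter.mp hy).1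
          · rw [Finset.disjoint_left]
            intro y hy h
            rw [hE', Finset.mem_insert] at h
            rw [Finset.mem_union] at hy
            rcases hy with hy | hy
            · rcases h with h | h
              · exact (Finset.mem_erase.mp hy).1 h
              · exact Finset.disjoint_left.mp hAE (Finset.mem_of_mem_erase hy) h
            · rcases h with h | h
              · exact hxY (h ▸ (Finset.mem_filter.mp hy).1)
              · exact hYE y (Finset.mem_filter.mp hy).1 h
          · intro y hy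
            rw [Finset.mem_union] at hy
            rcases hy with hy | hy
            · refine subset_trans (Set.smul_set_mono ?_) (hA y (Finset.mem_of_mem_erase hy))
              exact Set.pow_subset_pow_right (Or.inl rfl) (Nat.le_succ l)
            · rintro _ ⟨g, hg, rfl⟩
              exact hYW y (Finset.mem_filter.mp hy).1 g hg
          · rw [hE', Finset.card_insert_of_notMem hxE]
            omega
      _ = ρ ^ (A.card - 1) * ∫⁻ ω, ρ ^ (X ω).card ∂(Measure.infinitePi m) := by
          rw [lintegral_const_mul' _ _ (ne_top_of_le_ne_top ENNReal.one_ne_top (pow_le_one' hρ1 _))]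
      _ ≤ ρ ^ (A.card - 1) * ρ := by
          refine mul_le_mul_right ?_ _
          refine (genfun m x Y hxY ρ q hρ1 ?_).trans ?_
          · intro y hy e he
            obtain ⟨b, hb, rfl⟩ := hYB y hy
            exact hm b hb e x he
          · refine le_trans (pow_le_pow_right_of_le_one' ?_ hYc) hρ
            calc ρ + (1 - ρ) * q ≤ ρ + (1 - ρ) * 1 := by gcongr
              _ = 1 := by rw [mul_one, add_tsub_cancel_of_le hρ1]
      _ = ρ ^ A.card := by
          rw [← pow_succ, Nat.sub_add_cancel (Finset.card_pos.mpr ⟨x, hx⟩)]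

omit [Countable Γ] in
theorem first_finite (B0 : Finset Γ) (L : ℕ) : ((insert 1 (B0 : Set Γ)) ^ L).Finite := by
  induction L with
  | zero => simp
  | succ L ih =>
    rw [pow_succ]
    exact ih.mul (B0.finite_toSet.insert 1)

/-- the first window -/
theorem good_first (B0 : Finset Γ) (ρ q : ℝ≥0∞) (hρ1 : ρ ≤ 1) (hq1 : q ≤ 1) (n0 L : ℕ)
    (hB : n0 + L ≤ B0.card)
    (hm : ∀ b ∈ B0, ∀ e : Pair Γ, ∀ g : Γ, e.1 = s(g, g * b) → m e {0} ≤ q)
    (hρ : (ρ + (1 - ρ) * q) ^ n0 ≤ ρ) :
    Good m ((insert 1 (B0 : Set Γ)) ^ L) L (1 - ρ) := by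
  classical
  intro x
  set F : Set Γ := (insert 1 (B0 : Set Γ)) ^ L with hF
  have hFf : F.Finite := first_finite B0 L
  have hone : (1 : Γ) ∈ F := Set.one_mem_pow (Or.inl rfl)
  have h := explore m B0 ρ q hρ1 hq1 n0 L hB hm hρ L (x • F) hFf.smul_set ∅ {x}
    (by simpa using ⟨1, hone, by simp⟩) (by simp)
    (by intro a ha; rw [Finset.mem_singleton] at ha; subst ha; exact le_refl _) (by simp)
  simp only [Finset.coe_empty, Set.sdiff_empty, Finset.coe_singleton, Finset.card_singleton,
    pow_one] at h
  have hms : MeasurableSet {ω : Pair Γ → ℕ | (clu ω (x • F) {x}).ncard < L} :=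
    (dep_clu (x • F) {x} (fun C => C.ncard < L)).measurable (pairsIn_finite hFf.smul_set)
  have e1 : {ω : Pair Γ → ℕ | L ≤ (clu ω (x • F) {x}).ncard}
      = {ω : Pair Γ → ℕ | (clu ω (x • F) {x}).ncard < L}ᶜ := by
    ext ω; simp
  rw [e1, measure_compl hms (measure_ne_top _ _), measure_univ]
  exact tsub_le_tsub_left h _

end Pool.Agent.Q220.Grp
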