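import Mathlib
import Pool.Agent.Q220.Grp.Clu

/-!
The merging step: clusters of size `K` inside translates of `F` are joined in pairs through edges
`{s, s b}`, `b ∈ B`, with the sets `F b F` pairwise disjoint.
-/

set_option autoImplicit false
open MeasureTheory ProbabilityTheory
open scoped ENNReal NNReal BigOperators Pointwise

namespace Pool.Agent.Q220.Grp

variable {Γ : Type*} [Group Γ] [Countable Γ]

variable (m : Pair Γ → Measure ℕ) [∀ e, IsProbabilityMeasure (m e)]

/-- the enlarged window -/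
def ext (F : Set Γ) (B : Finset Γ) : Set Γ := F ∪ ⋃ b ∈ B, F * {b} * F

omit [Countable Γ] in
theorem ext_finite {F : Set Γ} (hF : F.Finite) (B : Finset Γ) : (ext F B).Finite := by
  refine hF.union (Set.Finite.biUnion B.finite_toSet fun b _ => ?_)
  exact (hF.mul (Set.finite_singleton b)).mul hF

theorem merge {F : Set Γ} (hF : F.Finite) (h1 : (1 : Γ) ∈ F) {K : ℕ} {θ : ℝ≥0∞}
    (hG : Good m F K θ) (B : Finset Γ) (hB1 : ∀ b ∈ B, Disjoint F (F * {b} * F))
    (hB2 : ∀ b ∈ B, ∀ b' ∈ B, b ≠ b' → Disjoint (F * {b} * F) (F * {b'} * F))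
    (a : ℝ) (ha : 0 ≤ a)
    (hm : ∀ b ∈ B, ∀ e : Pair Γ, ∀ g : Γ, e.1 = s(g, g * b) →
      m e {0} ≤ ENNReal.ofReal (Real.exp (-a))) :
    Good m (ext F B) (2 * K)
      ((1 - (1 - θ * (1 - ENNReal.ofReal (Real.exp (-a * K)))) ^ B.card) * θ) := by
  classical
  intro x
  set W := x • F with hW
  have hWf : W.Finite := hF.smul_set
  set Wf : Finset Γ := hWf.toFinset with hWfd
  have hxW : x ∈ W := ⟨1, h1, by simp⟩
  have hdis : ∀ b ∈ B, Disjoint (x • F) (x • (F * {b} * F)) := by
    intro b hb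
    have hb1 := hB1 b hb
    rw [Set.disjoint_left] at hb1 ⊢
    rintro _ ⟨f, hf, rfl⟩ ⟨g, hg, hfg⟩
    simp only [smul_eq_mul, mul_right_inj] at hfg
    subst hfg
    exact hb1 hf hg
  have hdis2 : ∀ b ∈ B, ∀ b' ∈ B, b ≠ b' →
      Disjoint (x • (F * {b} * F)) (x • (F * {b'} * F)) := by
    intro b hb b' hb' hne
    have hb1 := hB2 b hb b' hb' hne
    rw [Set.disjoint_left] at hb1 ⊢
    rintro _ ⟨f, hf, rfl⟩ ⟨g, hg, hfg⟩
    simp only [smul_eq_mul, mul_right_inj] at hfg
    subst hfg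
    exact hb1 hf hg
  have hsb : ∀ b : Γ, ∀ s ∈ x • F, s * b ∈ x • (F * {b} * F) := fun b s hs =>
    mem_smul_mul hs ⟨1, h1, by simp⟩
  have hFb : ∀ b : Γ, (x • (F * {b} * F)).Finite := by
    intro b
    refine Set.Finite.smul_set ?_
    exact (hF.mul (Set.finite_singleton b)).mul hF
  -- the coordinates used by the block `b`
  set D : Γ → Set (Pair Γ) := fun b => {e : Pair Γ | ∃ s ∈ W, e.1 = s(s, s * b)} ∪
    pairsIn (x • (F * {b} * F)) with hD
  have hDf : ∀ b : Γ, (D b).Finite := by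
    intro b
    refine Set.Finite.union ?_ (pairsIn_finite (hFb b))
    have : {e : Pair Γ | ∃ s ∈ W, e.1 = s(s, s * b)} = ⋃ s ∈ W, {e : Pair Γ | e.1 = s(s, s * b)} := by
      ext e; simp only [Set.mem_ofPred_eq, Set.mem_iUnion, exists_prop]
    rw [this]
    refine Set.Finite.biUnion hWf fun s _ => ?_
    exact Set.Subsingleton.finite fun e he e' he' => Subtype.ext (he.trans he'.symm)
  have hDmem : ∀ b ∈ B, ∀ e ∈ D b, ∃ v ∈ e.1, v ∈ x • (F * {b} * F) ∧
      ∀ w ∈ e.1, w ∈ W ∨ w ∈ x • (F * {b} * F) := by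
    rintro b hb e (⟨s, hs, he⟩ | he)
    · refine ⟨s * b, by rw [he]; exact Sym2.mem_mk_right _ _, hsb b s hs, ?_⟩
      intro w hw
      rw [he, Sym2.mem_iff] at hw
      rcases hw with rfl | rfl
      · exact Or.inl hs
      · exact Or.inr (hsb b s hs)
    · obtain ⟨e, hne⟩ := e
      induction e using Sym2.ind with
      | _ u v =>
        exact ⟨u, Sym2.mem_mk_left u v, he u (Sym2.mem_mk_left u v), fun w hw => Or.inr (he w hw)⟩
  have hDdis : ∀ b ∈ B, ∀ b' ∈ B, b ≠ b' → Disjoint (D b) (D b') := by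
    intro b hb b' hb' hne
    rw [Set.disjoint_left]
    intro e he he'
    obtain ⟨v, hv, hvb, _⟩ := hDmem b hb e he
    obtain ⟨_, _, _, h2⟩ := hDmem b' hb' e he'
    rcases h2 v hv with h3 | h3
    · exact Set.disjoint_left.mp (hdis b hb) h3 hvb
    · exact Set.disjoint_left.mp (hdis2 b hb b' hb' hne) hvb h3
  have hD1 : Disjoint (pairsIn W) (⋃ b ∈ B, D b) := by
    rw [Set.disjoint_left]
    intro e he he'
    simp only [Set.mem_iUnion, exists_prop] at he'
    obtain ⟨b, hb, he'⟩ := he'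
    obtain ⟨v, hv, hvb, _⟩ := hDmem b hb e he'
    exact Set.disjoint_left.mp (hdis b hb) (he v hv) hvb
  -- the block events
  set E : Finset Γ → Γ → Set (Pair Γ → ℕ) := fun T b =>
    {ω | ∃ s ∈ T, Opn ω s (s * b) ∧ K ≤ (clu ω ((s * b) • F) {s * b}).ncard} with hE
  have hEdep : ∀ T : Finset Γ, (T : Set Γ) ⊆ W → ∀ b ∈ B, Dep (D b) (E T b) := by
    intro T hT b hb
    have : E T b = ⋃ s, ⋃ _ : s ∈ T, ({ω | Opn ω s (s * b)} ∩
        {ω | K ≤ (clu ω ((s * b) • F) {s * b}).ncard}) := by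
      ext ω
      simp only [hE, Set.mem_ofPred_eq, Set.mem_iUnion, exists_prop, Set.mem_inter_iff]
    rw [this]
    refine Dep.iUnion fun s => Dep.iUnion fun hs => Dep.inter ?_ ?_
    · exact (dep_opn s (s * b)).mono fun e he => Or.inl ⟨s, hT hs, he⟩
    · refine (dep_clu ((s * b) • F) {s * b} (fun C => K ≤ C.ncard)).mono ?_
      intro e he
      refine Or.inr fun v hv => ?_
      exact mem_smul_mul (hT hs) (he v hv)
  have hmain := decouple_ge m (D1 := pairsIn W) (D2 := ⋃ b ∈ B, D b) (pairsIn_finite hWf)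
    (Set.Finite.biUnion B.finite_toSet fun b _ => hDf b) hD1
    (fun ω => Wf.filter fun y => y ∈ clu ω W {x}) (by
      intro u ω ω' h hω
      rw [Set.mem_ofPred_eq] at hω ⊢
      rw [← hω, clu_congr h {x}])
    (fun T => if (T : Set Γ) ⊆ W then (⋂ b ∈ B, (E T b)ᶜ)ᶜ else ∅) (by
      intro T
      split_ifs with hT
      · refine Dep.compl (Dep.iInter fun b => Dep.iInter fun hb => ?_)
        exact (hEdep T hT b hb).compl.mono (Set.subset_biUnion_of_mem (u := D) hb)
      · intro _ _ _ h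
        exact h.elim)
    {T | (T : Set Γ) ⊆ W ∧ K ≤ T.card}
    (1 - (1 - θ * (1 - ENNReal.ofReal (Real.exp (-a * K)))) ^ B.card) (by
      rintro T ⟨hT, hTK⟩
      rw [if_pos hT]
      rw [measure_compl, measure_univ, Dep.prod m B D (fun b _ => hDf b) hDdis
        (fun b => (E T b)ᶜ) (fun b hb => (hEdep T hT b hb).compl)]
      · refine tsub_le_tsub_left ?_ _
        rw [← Finset.prod_const]
        refine Finset.prod_le_prod' fun b hb => ?_
        rw [measure_compl ((hEdep T hT b hb).measurable (hDf b)) (measure_ne_top _ _), measure_univ]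
        refine tsub_le_tsub_left ?_ _
        exact block m hF h1 hG b (hB1 b hb) a (hm b hb) x T hT hTK ha
      · refine Dep.measurable (D := ⋃ b ∈ B, D b)
          (Set.Finite.biUnion B.finite_toSet fun b _ => hDf b) ?_
        refine Dep.iInter fun b => Dep.iInter fun hb => ?_
        exact (hEdep T hT b hb).compl.mono (Set.subset_biUnion_of_mem (u := D) hb)
      · exact measure_ne_top _ _)
  refine le_trans (mul_le_mul_right (hG x) _) ?_
  refine le_trans (mul_le_mul_right (measure_mono ?_) _) (hmain.trans (measure_mono ?_))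
  · intro ω hω
    rw [Set.mem_ofPred_eq] at hω
    have h3 : clu ω W {x} ⊆ W := clu_subset ω W {x} (by simpa using hxW)
    have h4 : ((Wf.filter fun y => y ∈ clu ω W {x} : Finset Γ) : Set Γ) = clu ω W {x} := by
      ext y
      simp only [Finset.coe_filter, Set.mem_ofPred_eq, hWfd, Set.Finite.mem_toFinset]
      exact ⟨fun h => h.2, fun h => ⟨h3 h, h⟩⟩
    refine ⟨?_, ?_⟩
    · rw [h4]; exact h3
    · rw [← Set.ncard_coe_finset, h4]
      exact hω
  · rintro ω ⟨⟨hT, hTK⟩, hω⟩
    have h3 : clu ω W {x} ⊆ W := clu_subset ω W {x} (by simpa using hxW)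
    have h4 : ((Wf.filter fun y => y ∈ clu ω W {x} : Finset Γ) : Set Γ) = clu ω W {x} := by
      ext y
      simp only [Finset.coe_filter, Set.mem_ofPred_eq, hWfd, Set.Finite.mem_toFinset]
      exact ⟨fun h => h.2, fun h => ⟨h3 h, h⟩⟩
    simp only [if_pos hT] at hω
    simp only [Set.mem_compl_iff, Set.mem_iInter, not_forall, not_not] at hω
    obtain ⟨b, hb, s, hs, hop, hK⟩ := hω
    rw [Finset.mem_filter] at hs
    have hsW : s ∈ W := h3 hs.2
    have hb' : F * {b} * F ⊆ ext F B :=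
      fun g hg => Or.inr (Set.mem_biUnion hb hg)
    have hx1 : x • F ⊆ x • ext F B := Set.smul_set_mono fun g hg => Or.inl hg
    have hx2 : x • (F * {b} * F) ⊆ x • ext F B := Set.smul_set_mono hb'
    have hC2 : clu ω ((s * b) • F) {s * b} ⊆ clu ω (x • ext F B) {x} := by
      rintro y ⟨z, hz, hzy⟩
      rw [Set.mem_singleton_iff] at hz
      subst hz
      have h5 : s ∈ clu ω (x • ext F B) {x} := clu_mono hx1 (le_refl _) hs.2
      have h6 : stepR ω (x • ext F B) s (s * b) := ⟨hx1 hsW, hx2 (hsb b s hsW), hop⟩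
      refine clu_trans (clu_trans h5 (Relation.ReflTransGen.single h6)) ?_
      · refine Relation.ReflTransGen.mono (fun _ _ => stepR_mono ?_) _ _ hzy
        exact (mem_smul_mul hsW).trans hx2
    have hC1 : clu ω W {x} ⊆ clu ω (x • ext F B) {x} := clu_mono hx1 (le_refl _)
    have hd : Disjoint (clu ω W {x}) (clu ω ((s * b) • F) {s * b}) := by
      refine Set.disjoint_of_subset h3 ?_ (hdis b hb)
      refine (clu_subset _ _ _ ?_).trans (mem_smul_mul hsW)
      rw [Set.singleton_subset_iff]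
      exact ⟨1, h1, by simp⟩
    have hfin : (clu ω (x • ext F B) {x}).Finite := by
      refine ((ext_finite hF B).smul_set).subset (clu_subset _ _ _ ?_)
      rw [Set.singleton_subset_iff]
      exact hx1 hxW
    have hu := Set.ncard_le_ncard (Set.union_subset hC1 hC2) hfin
    rw [Set.ncard_union_eq hd (hfin.subset hC1) (hfin.subset hC2)] at hu
    have hK1 : K ≤ (clu ω W {x}).ncard := by
      rw [← h4, Set.ncard_coe_finset]
      exact hTK
    show 2 * K ≤ _
    omega

end Pool.Agent.Q220.Grp
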