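import Mathlib
import Pool.Agent.Q220.Grp.Merge

/-!
Sparse sets in an infinite group and the sequence of windows.
-/

set_option autoImplicit false
open MeasureTheory ProbabilityTheory
open scoped ENNReal NNReal BigOperators Pointwise

namespace Pool.Agent.Q220.Grp

variable {Γ : Type*} [Group Γ]

/-- the properties of the set of generators used at one scale -/
def Sparse (F : Set Γ) (B : Finset Γ) : Prop :=
  (∀ b ∈ B, Disjoint F (F * {b} * F)) ∧
    ∀ b ∈ B, ∀ b' ∈ B, b ≠ b' → Disjoint (F * {b} * F) (F * {b'} * F)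

theorem exists_sparse [Infinite Γ] {F : Set Γ} (hF : F.Finite) (N : ℕ) :
    ∃ B : Finset Γ, B.card = N ∧ Sparse F B := by
  classical
  induction N with
  | zero => exact ⟨∅, rfl, by simp [Sparse]⟩
  | succ N ih =>
    obtain ⟨B, hB, hB1, hB2⟩ := ih
    set X : Set Γ := (F⁻¹ * F * F⁻¹) ∪ (⋃ b ∈ B, F⁻¹ * (F * {b} * F) * F⁻¹) ∪ B with hX
    have hXf : X.Finite := by
      refine Set.Finite.union (Set.Finite.union ?_ ?_) B.finite_toSet
      · exact (hF.inv.mul hF).mul hF.inv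
      · refine Set.Finite.biUnion B.finite_toSet fun b _ => ?_
        exact (hF.inv.mul ((hF.mul (Set.finite_singleton b)).mul hF)).mul hF.inv
    obtain ⟨c, hc⟩ := hXf.exists_notMem
    have hcB : c ∉ B := fun h => hc (Or.inr h)
    have h2 : ∀ b ∈ B, Disjoint (F * {c} * F) (F * {b} * F) := by
      intro b hb
      rw [Set.disjoint_left]
      rintro _ ⟨_, ⟨f1, hf1, c', hc', rfl⟩, f2, hf2, rfl⟩ h
      rw [Set.mem_singleton_iff] at hc'
      rw [hc'] at h
      refine hc (Or.inl (Or.inr ?_))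
      refine Set.mem_biUnion hb ?_
      refine ⟨f1⁻¹ * (f1 * c * f2), ⟨f1⁻¹, Set.inv_mem_inv.mpr hf1, _, h, rfl⟩, f2⁻¹,
        Set.inv_mem_inv.mpr hf2, ?_⟩
      simp [mul_assoc]
    refine ⟨insert c B, by rw [Finset.card_insert_of_notMem hcB, hB], ?_, ?_⟩
    · intro b hb
      rw [Finset.mem_insert] at hb
      rcases hb with rfl | hb
      · rw [Set.disjoint_left]
        rintro f hf ⟨_, ⟨f1, hf1, _, rfl, rfl⟩, f2, hf2, h⟩
        refine hc (Or.inl (Or.inl ?_))
        refine ⟨f1⁻¹ * f, ⟨f1⁻¹, Set.inv_mem_inv.mpr hf1, _, hf, rfl⟩, f2⁻¹,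
          Set.inv_mem_inv.mpr hf2, ?_⟩
        simp only at h ⊢
        rw [← h]
        simp [mul_assoc]
      · exact hB1 b hb
    · intro b hb b' hb' hne
      rw [Finset.mem_insert] at hb hb'
      rcases hb with rfl | hb
      · rcases hb' with rfl | hb'
        · exact absurd rfl hne
        · exact h2 b' hb'
      · rcases hb' with rfl | hb'
        · exact (h2 b hb).symm
        · exact hB2 b hb b' hb' hne

/-- the data of a scale -/
structure Win (Γ : Type*) [Group Γ] where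
  /-- window -/
  F : Set Γ
  fin : F.Finite
  one : (1 : Γ) ∈ F

/-- a sparse set chosen for a window -/
noncomputable def pick [Infinite Γ] (w : Win Γ) (N : ℕ) : Finset Γ :=
  (exists_sparse w.fin N).choose

theorem pick_card [Infinite Γ] (w : Win Γ) (N : ℕ) : (pick w N).card = N :=
  (exists_sparse w.fin N).choose_spec.1

theorem pick_sparse [Infinite Γ] (w : Win Γ) (N : ℕ) : Sparse w.F (pick w N) :=
  (exists_sparse w.fin N).choose_spec.2

/-- the sequence of windows -/
noncomputable def win [Infinite Γ] (w : Win Γ) (N : ℕ → ℕ) : ℕ → Win Γ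
  | 0 => w
  | n + 1 => ⟨ext (win w N n).F (pick (win w N n) (N n)), ext_finite (win w N n).fin _,
      Or.inl (win w N n).one⟩

/-- the sequence of sparse sets -/
noncomputable def gens [Infinite Γ] (w : Win Γ) (N : ℕ → ℕ) (n : ℕ) : Finset Γ :=
  pick (win w N n) (N n)

theorem gens_card [Infinite Γ] (w : Win Γ) (N : ℕ → ℕ) (n : ℕ) : (gens w N n).card = N n :=
  pick_card _ _

theorem win_succ [Infinite Γ] (w : Win Γ) (N : ℕ → ℕ) (n : ℕ) :
    (win w N (n + 1)).F = ext (win w N n).F (gens w N n) := rfl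

section

variable [Countable Γ] (m : Pair Γ → Measure ℕ) [∀ e, IsProbabilityMeasure (m e)]

theorem Good.mono {F : Set Γ} {K K' : ℕ} {θ θ' : ℝ≥0∞} (h : Good m F K θ) (hK : K' ≤ K)
    (hθ : θ' ≤ θ) : Good m F K' θ' := fun x =>
  hθ.trans ((h x).trans (measure_mono fun _ hω => le_trans hK hω))

theorem merge_real {F : Set Γ} (hF : F.Finite) (h1 : (1 : Γ) ∈ F) {K : ℕ} {θ : ℝ} (hθ0 : 0 ≤ θ)
    (hθ1 : θ ≤ 1)
    (hG : Good m F K (ENNReal.ofReal θ)) (B : Finset Γ) (hB : Sparse F B)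
    (a s : ℝ) (ha : 0 ≤ a) (haK : a * K ≤ 1) (hs : s ≤ a * K * B.card / 2)
    (hm : ∀ b ∈ B, ∀ e : Pair Γ, ∀ g : Γ, e.1 = s(g, g * b) →
      m e {0} ≤ ENNReal.ofReal (Real.exp (-a))) :
    Good m (ext F B) (2 * K) (ENNReal.ofReal (θ * (1 - Real.exp (-(θ * s))))) := by
  have h := merge m hF h1 hG B hB.1 hB.2 a ha hm
  refine h.mono m le_rfl ?_
  have hK0 : (0 : ℝ) ≤ K := Nat.cast_nonneg K
  have haK0 : 0 ≤ a * K := mul_nonneg ha hK0
  have hq0 : Real.exp (-a * K) ≤ 1 := by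
    rw [Real.exp_le_one_iff]; nlinarith
  have hq : a * K / 2 ≤ 1 - Real.exp (-a * K) := by
    have h2 : Real.exp (-(a * K)) ≤ 1 - (a * K) / 2 := by
      have h3 := Real.exp_bound_div_one_sub_of_interval (x := a * K) haK0
      have h5 : 1 + a * K ≤ Real.exp (a * K) := by
        have := Real.add_one_le_exp (a * K); linarith
      rw [Real.exp_neg]
      have h6 : (Real.exp (a * K))⁻¹ ≤ (1 + a * K)⁻¹ := by
        apply inv_anti₀ (by linarith) h5
      refine h6.trans ?_
      rw [inv_le_iff_one_le_mul₀ (by linarith)]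
      nlinarith
    have h4 : -a * (K : ℝ) = -(a * K) := by ring
    rw [h4]
    linarith
  have hp0 : 0 ≤ θ * (1 - Real.exp (-a * K)) := mul_nonneg hθ0 (by linarith)
  have hp1 : θ * (1 - Real.exp (-a * K)) ≤ 1 := by
    have : 1 - Real.exp (-a * K) ≤ 1 := by have := Real.exp_pos (-a * K); linarith
    nlinarith [Real.exp_pos (-a * K)]
  have e1 : (1 - ENNReal.ofReal (Real.exp (-a * K)) : ℝ≥0∞)
      = ENNReal.ofReal (1 - Real.exp (-a * K)) := by
    rw [ENNReal.ofReal_sub _ (Real.exp_pos _).le, ENNReal.ofReal_one]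
  have e2 : (1 - ENNReal.ofReal θ * ENNReal.ofReal (1 - Real.exp (-a * K)) : ℝ≥0∞)
      = ENNReal.ofReal (1 - θ * (1 - Real.exp (-a * K))) := by
    rw [← ENNReal.ofReal_mul hθ0, ENNReal.ofReal_sub _ hp0, ENNReal.ofReal_one]
  rw [e1, e2, ← ENNReal.ofReal_pow (by linarith)]
  have e3 : (1 - ENNReal.ofReal ((1 - θ * (1 - Real.exp (-a * K))) ^ B.card) : ℝ≥0∞)
      = ENNReal.ofReal (1 - (1 - θ * (1 - Real.exp (-a * K))) ^ B.card) := by
    rw [ENNReal.ofReal_sub _ (pow_nonneg (by linarith) _), ENNReal.ofReal_one]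
  rw [e3, ← ENNReal.ofReal_mul]
  · refine ENNReal.ofReal_le_ofReal ?_
    rw [mul_comm]
    refine mul_le_mul_of_nonneg_right ?_ hθ0
    refine sub_le_sub_left ?_ _
    calc (1 - θ * (1 - Real.exp (-a * K))) ^ B.card
        ≤ (Real.exp (-(θ * (1 - Real.exp (-a * K))))) ^ B.card := by
          refine pow_le_pow_left₀ (by linarith) ?_ _
          have := Real.add_one_le_exp (-(θ * (1 - Real.exp (-a * K))))
          linarith
      _ = Real.exp (B.card * -(θ * (1 - Real.exp (-a * K)))) := by rw [← Real.exp_nat_mul]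
      _ ≤ Real.exp (-(θ * s)) := by
          rw [Real.exp_le_exp]
          have hc : (0 : ℝ) ≤ B.card := Nat.cast_nonneg _
          have h7 : θ * s ≤ θ * (a * K / 2 * B.card) := by
            refine mul_le_mul_of_nonneg_left ?_ hθ0
            linarith
          have h8 : θ * (a * K / 2 * B.card) ≤ θ * ((1 - Real.exp (-a * K)) * B.card) :=
            mul_le_mul_of_nonneg_left (mul_le_mul_of_nonneg_right hq hc) hθ0
          nlinarith
  · have : (1 - θ * (1 - Real.exp (-a * K))) ^ B.card ≤ 1 :=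
      pow_le_one₀ (by linarith) (by linarith)
    linarith

/-- the recursion over scales -/
theorem good_all [Infinite Γ] (w : Win Γ) (N : ℕ → ℕ) (K : ℕ) (θ : ℝ) (hθ0 : 0 ≤ θ) (hθ1 : θ ≤ 1)
    (h0 : Good m w.F K (ENNReal.ofReal θ)) (a s : ℕ → ℝ) (ha : ∀ n, 0 ≤ a n)
    (haK : ∀ n, a n * (2 ^ n * K) ≤ 1) (hs : ∀ n, s n ≤ a n * (2 ^ n * K) * N n / 2)
    (hs0 : ∀ n, 0 ≤ s n)
    (hm : ∀ n, ∀ b ∈ gens w N n, ∀ e : Pair Γ, ∀ g : Γ, e.1 = s(g, g * b) →
      m e {0} ≤ ENNReal.ofReal (Real.exp (-a n)))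
    (hsum : ∀ n, ∑ j ∈ Finset.range n, Real.exp (-(θ / 2 * s j)) ≤ 1 / 2) (n : ℕ) :
    Good m (win w N n).F (2 ^ n * K)
      (ENNReal.ofReal (θ * (1 - ∑ j ∈ Finset.range n, Real.exp (-(θ / 2 * s j))))) := by
  induction n with
  | zero =>
    simp only [pow_zero, one_mul, Finset.range_zero, Finset.sum_empty, sub_zero, mul_one]
    exact h0
  | succ n ih =>
    set S := ∑ j ∈ Finset.range n, Real.exp (-(θ / 2 * s j)) with hS
    have hSn : S ≤ 1 / 2 := hsum n
    have hS0 : 0 ≤ S := Finset.sum_nonneg fun j _ => (Real.exp_pos _).le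
    have h := merge_real m (win w N n).fin (win w N n).one (K := 2 ^ n * K)
      (θ := θ * (1 - S)) (mul_nonneg hθ0 (by linarith)) (by nlinarith) ih (gens w N n)
      (pick_sparse _ _) (a n) (s n) (ha n) (by push_cast; exact haK n)
      (by push_cast; rw [gens_card]; exact hs n) (hm n)
    rw [win_succ, pow_succ, mul_comm (2 ^ n) 2, mul_assoc]
    refine h.mono m le_rfl (ENNReal.ofReal_le_ofReal ?_)
    rw [Finset.sum_range_succ]
    have h9 : Real.exp (-(θ * (1 - S) * s n)) ≤ Real.exp (-(θ / 2 * s n)) := by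
      rw [Real.exp_le_exp]
      have : θ / 2 * s n ≤ θ * (1 - S) * s n := by
        refine mul_le_mul_of_nonneg_right ?_ (hs0 n)
        nlinarith
      linarith
    have h10 : 0 ≤ Real.exp (-(θ / 2 * s n)) := (Real.exp_pos _).le
    have h11 : θ * (1 - S) * Real.exp (-(θ * (1 - S) * s n)) ≤ θ * Real.exp (-(θ / 2 * s n)) := by
      have h12 : θ * (1 - S) ≤ θ := by nlinarith
      exact mul_le_mul h12 h9 (Real.exp_pos _).le hθ0
    nlinarith

/-- good windows with arbitrarily large clusters give an infinite cluster -/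
theorem infinite_of_good (F : ℕ → Set Γ) (hF : ∀ n, (F n).Finite) (h1 : ∀ n, (1 : Γ) ∈ F n)
    (K : ℕ → ℕ) (hK : Filter.Tendsto K Filter.atTop Filter.atTop) (θ : ℝ≥0∞)
    (h : ∀ n, Good m (F n) (K n) θ) :
    θ ≤ Measure.infinitePi m {ω | (clu ω Set.univ {(1 : Γ)}).Infinite} := by
  set A : ℕ → Set (Pair Γ → ℕ) := fun n => {ω | K n ≤ (clu ω ((1 : Γ) • F n) {1}).ncard} with hA
  set U : ℕ → Set (Pair Γ → ℕ) := fun n => ⋃ k ≥ n, A k with hU
  have hAm : ∀ n, MeasurableSet (A n) := fun n =>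
    (dep_clu ((1 : Γ) • F n) {1} (fun C => K n ≤ C.ncard)).measurable
      (pairsIn_finite (hF n).smul_set)
  have hUm : ∀ n, MeasurableSet (U n) := fun n =>
    MeasurableSet.iUnion fun k => MeasurableSet.iUnion fun _ => hAm k
  have hanti : Antitone U := by
    intro n n' hn
    exact Set.biUnion_subset_biUnion_left fun k (hk : n' ≤ k) => le_trans hn hk
  have h2 : Measure.infinitePi m (⋂ n, U n) = ⨅ n, Measure.infinitePi m (U n) :=
    hanti.measure_iInter (fun n => (hUm n).nullMeasurableSet) ⟨0, measure_ne_top _ _⟩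
  have h3 : θ ≤ Measure.infinitePi m (⋂ n, U n) := by
    rw [h2]
    refine le_iInf fun n => (h n 1).trans (measure_mono ?_)
    exact Set.subset_biUnion_of_mem (u := A) (le_refl n)
  refine h3.trans (measure_mono ?_)
  intro ω hω
  rw [Set.mem_iInter] at hω
  rw [Set.mem_ofPred_eq]
  intro hfin
  obtain ⟨n, hn⟩ := (hK.eventually (Filter.eventually_gt_atTop
    (clu ω Set.univ {(1 : Γ)}).ncard)).exists_forall_of_atTop
  obtain ⟨k, hk, hk2⟩ := Set.mem_iUnion₂.mp (hω n)
  have h4 := Set.ncard_le_ncard (clu_mono (ω := ω) (Set.subset_univ ((1 : Γ) • F k))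
    (le_refl ({1} : Set Γ))) hfin
  have h5 := hn k hk
  have h6 : K k ≤ (clu ω ((1 : Γ) • F k) {1}).ncard := hk2
  omega

end

end Pool.Agent.Q220.Grp
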