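import Mathlib
import Pool.Agent.Q220.Grp.Explore
import Pool.Agent.Q220.Grp.Sparse

/-!
The weights on an infinite countable group with percolation at a given intensity `t > 1`.
-/

set_option autoImplicit false
open MeasureTheory ProbabilityTheory
open scoped ENNReal NNReal BigOperators Pointwise

namespace Pool.Agent.Q220.Grp

section real

theorem one_sub_exp (a : ℝ) (ha : 0 ≤ a) : a - a ^ 2 / 2 ≤ 1 - Real.exp (-a) := by
  have h := Real.quadratic_le_exp_of_nonneg ha
  have h1 : 0 < 1 + a + a ^ 2 / 2 := by positivity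
  rw [Real.exp_neg]
  have h2 : (Real.exp a)⁻¹ ≤ (1 + a + a ^ 2 / 2)⁻¹ := inv_anti₀ h1 h
  have h3 : (1 + a + a ^ 2 / 2)⁻¹ ≤ 1 - (a - a ^ 2 / 2) := by
    rw [inv_le_iff_one_le_mul₀ h1]
    nlinarith [pow_nonneg ha 3, pow_nonneg ha 4, pow_nonneg ha 2]
  linarith

/-- a strict super-solution of the extinction equation -/
theorem extinction (r : ℝ) (hr : 1 < r) :
    0 < (r - 1) / r ^ 2 ∧ (r - 1) / r ^ 2 < 1 ∧
      Real.exp (-((r - 1) / r ^ 2 * r)) < 1 - (r - 1) / r ^ 2 := by
  have hr0 : 0 < r := by linarith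
  have h1 : 0 < (r - 1) / r ^ 2 := div_pos (by linarith) (by positivity)
  have h2 : (r - 1) / r ^ 2 < 1 := by
    rw [div_lt_one (by positivity)]
    nlinarith
  refine ⟨h1, h2, ?_⟩
  have h3 := one_sub_exp ((r - 1) / r ^ 2 * r) (by positivity)
  have h4 : (r - 1) / r ^ 2 < (r - 1) / r ^ 2 * r - ((r - 1) / r ^ 2 * r) ^ 2 / 2 := by
    have h5 : (r - 1) / r ^ 2 * r - ((r - 1) / r ^ 2 * r) ^ 2 / 2 - (r - 1) / r ^ 2
        = (r - 1) ^ 2 / (2 * r ^ 2) := by
      field_simp
      ring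
    have h6 : 0 < (r - 1) ^ 2 / (2 * r ^ 2) := div_pos (by nlinarith) (by positivity)
    linarith
  linarith

theorem eventually_small (r : ℝ) (hr : 1 < r) (L : ℕ) : ∃ n1 : ℕ, ∀ n : ℕ, n1 ≤ n →
    (1 - (r - 1) / r ^ 2 * (1 - Real.exp (-(r / (n + L : ℕ))))) ^ n ≤ 1 - (r - 1) / r ^ 2 := by
  obtain ⟨h1, h2, h3⟩ := extinction r hr
  set s := (r - 1) / r ^ 2 with hs
  have hr0 : 0 < r := by linarith
  have hlim : Filter.Tendsto (fun n : ℕ => Real.exp (-(s * (r - (r * (L + r)) / n))))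
      Filter.atTop (nhds (Real.exp (-(s * r)))) := by
    have h4 : Filter.Tendsto (fun n : ℕ => (r * (L + r)) / (n : ℝ)) Filter.atTop (nhds 0) :=
      tendsto_const_div_atTop_nhds_zero_nat _
    have h5 : Filter.Tendsto (fun n : ℕ => -(s * (r - (r * (L + r)) / (n : ℝ)))) Filter.atTop
        (nhds (-(s * (r - 0)))) := ((h4.const_sub r).const_mul s).neg
    rw [sub_zero] at h5
    exact (Real.continuous_exp.tendsto _).comp h5
  obtain ⟨n1, hn1⟩ := (hlim.eventually_lt_const h3).exists_forall_of_atTop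
  refine ⟨max n1 1, fun n hn => ?_⟩
  have hn0 : (1 : ℝ) ≤ n := by exact_mod_cast le_trans (le_max_right _ _) hn
  have hL0 : (0 : ℝ) ≤ L := Nat.cast_nonneg L
  set a := r / ((n + L : ℕ) : ℝ) with ha
  have hnL : (0 : ℝ) < ((n + L : ℕ) : ℝ) := by push_cast; linarith
  have ha0 : 0 < a := div_pos hr0 hnL
  have hq : a - a ^ 2 / 2 ≤ 1 - Real.exp (-a) := one_sub_exp a ha0.le
  have hq1 : 1 - Real.exp (-a) ≤ 1 := by have := Real.exp_pos (-a); linarith
  have hq0 : 0 ≤ 1 - Real.exp (-a) := by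
    have : Real.exp (-a) ≤ 1 := Real.exp_le_one_iff.mpr (by linarith)
    linarith
  have h6 : r - r * (L + r) / n ≤ n * (1 - Real.exp (-a)) := by
    have h7 : r - r * (L + r) / n ≤ n * (a - a ^ 2 / 2) := by
      have e : ((n + L : ℕ) : ℝ) = n + L := by push_cast; ring
      rw [ha, e]
      rw [e] at hnL
      have h8 : n * (r / (n + L) - (r / (n + L)) ^ 2 / 2) - (r - r * (L + r) / n)
          = (r * (L + r) * (n + L) ^ 2 - r * L * n * (n + L) - r ^ 2 * n ^ 2 / 2) / (n * (n + L) ^ 2) := by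
        field_simp
        ring
      have h9 : 0 ≤ (r * (L + r) * (n + L) ^ 2 - r * L * n * (n + L) - r ^ 2 * n ^ 2 / 2)
          / (n * (n + L) ^ 2) := by
        refine div_nonneg ?_ (by positivity)
        have e2 : r * (L + r) * (n + L) ^ 2 - r * L * n * (n + L) - r ^ 2 * n ^ 2 / 2
          = r * L ^ 2 * n + r * L ^ 3 + r ^ 2 * (n ^ 2 / 2 + 2 * n * L + L ^ 2) := by ring
        rw [e2]
        positivity
      linarith
    refine h7.trans (mul_le_mul_of_nonneg_left hq (by linarith))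
  calc (1 - s * (1 - Real.exp (-a))) ^ n ≤ (Real.exp (-(s * (1 - Real.exp (-a))))) ^ n := by
        refine pow_le_pow_left₀ ?_ ?_ n
        · nlinarith
        · have := Real.add_one_le_exp (-(s * (1 - Real.exp (-a))))
          linarith
    _ = Real.exp (-(s * (n * (1 - Real.exp (-a))))) := by
        rw [← Real.exp_nat_mul]
        congr 1
        ring
    _ ≤ Real.exp (-(s * (r - r * (L + r) / n))) := by
        rw [Real.exp_le_exp]
        have := mul_le_mul_of_nonneg_left h6 h1.le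
        linarith
    _ ≤ 1 - s := (hn1 n (le_trans (le_max_left _ _) hn)).le

theorem sum_exp_le (A : ℝ) (hA : 6 ≤ A) (n : ℕ) :
    ∑ j ∈ Finset.range n, Real.exp (-(A * (3 / 2) ^ j)) ≤ 1 / 2 := by
  have h1 : ∀ j : ℕ, Real.exp (-(A * (3 / 2) ^ j)) ≤ (1 / A) * (2 / 3) ^ j := by
    intro j
    have h2 : 0 < A * (3 / 2 : ℝ) ^ j := by positivity
    rw [Real.exp_neg]
    have h3 : A * (3 / 2 : ℝ) ^ j ≤ Real.exp (A * (3 / 2) ^ j) := by
      have := Real.add_one_le_exp (A * (3 / 2 : ℝ) ^ j); linarith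
    refine (inv_anti₀ h2 h3).trans (le_of_eq ?_)
    rw [mul_inv, one_div, ← inv_pow]
    norm_num
  refine (Finset.sum_le_sum fun j _ => h1 j).trans ?_
  rw [← Finset.mul_sum]
  have h4 : ∑ j ∈ Finset.range n, (2 / 3 : ℝ) ^ j ≤ 3 := by
    have h5 := (summable_geometric_of_lt_one (by norm_num : (0 : ℝ) ≤ 2 / 3)
      (by norm_num)).sum_le_tsum (Finset.range n) (fun _ _ => by positivity)
    rw [tsum_geometric_of_lt_one (by norm_num) (by norm_num)] at h5
    norm_num at h5
    exact h5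
  calc 1 / A * ∑ j ∈ Finset.range n, (2 / 3 : ℝ) ^ j ≤ 1 / A * 3 := by
        refine mul_le_mul_of_nonneg_left h4 (by positivity)
    _ ≤ 1 / 2 := by
        rw [one_div_mul_eq_div, div_le_div_iff₀ (by linarith) (by norm_num)]
        linarith

end real

section weights

variable {Γ : Type*} [Group Γ]

open Classical in
/-- uniform symmetrised weight on a finite set -/
noncomputable def u (B : Finset Γ) (g : Γ) : ℝ≥0∞ :=
  ((if g ∈ B then 1 else 0) + (if g⁻¹ ∈ B then 1 else 0)) * (2 * (B.card : ℝ≥0∞))⁻¹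

theorem u_symm (B : Finset Γ) (g : Γ) : u B g⁻¹ = u B g := by
  unfold u
  rw [inv_inv, add_comm]

theorem tsum_u_le (B : Finset Γ) : ∑' g, u B g ≤ 1 := by
  classical
  unfold u
  rw [ENNReal.tsum_mul_right, ENNReal.tsum_add]
  have h1 : ∑' g : Γ, (if g ∈ B then (1 : ℝ≥0∞) else 0) = B.card := by
    rw [tsum_eq_sum (s := B) (fun g hg => if_neg hg)]
    simp
  have h2 : ∑' g : Γ, (if g⁻¹ ∈ B then (1 : ℝ≥0∞) else 0) = B.card := by
    rw [← h1]
    exact (Equiv.inv Γ).tsum_eq (fun g => if g ∈ B then (1 : ℝ≥0∞) else 0)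
  have h3 : (2 * (B.card : ℝ≥0∞)) * (2 * (B.card : ℝ≥0∞))⁻¹ ≤ 1 := ENNReal.mul_inv_le_one _
  calc (∑' g : Γ, (if g ∈ B then (1 : ℝ≥0∞) else 0) + ∑' g : Γ, (if g⁻¹ ∈ B then (1 : ℝ≥0∞) else 0))
        * (2 * (B.card : ℝ≥0∞))⁻¹ = (2 * (B.card : ℝ≥0∞)) * (2 * (B.card : ℝ≥0∞))⁻¹ := by
        rw [h1, h2, two_mul]
    _ ≤ 1 := h3

theorem le_u (B : Finset Γ) {b : Γ} (hb : b ∈ B) : (2 * (B.card : ℝ≥0∞))⁻¹ ≤ u B b := by
  classical
  unfold u
  rw [if_pos hb]
  calc (2 * (B.card : ℝ≥0∞))⁻¹ = 1 * (2 * (B.card : ℝ≥0∞))⁻¹ := (one_mul _).symm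
    _ ≤ _ := by gcongr; exact le_self_add

theorem eq_u (B : Finset Γ) {b : Γ} (hb : b ∈ B) (hb' : b⁻¹ ∈ B) : u B b = (B.card : ℝ≥0∞)⁻¹ := by
  classical
  unfold u
  rw [if_pos hb, if_pos hb', ENNReal.mul_inv (Or.inl (by simp)) (Or.inl (by simp)), ← mul_assoc,
    one_add_one_eq_two, ENNReal.mul_inv_cancel (by simp) (by simp), one_mul]

/-- positive weights with full support -/
noncomputable def w (e : Γ → ℕ) (g : Γ) : ℝ≥0∞ :=
  2⁻¹ * ((2⁻¹ : ℝ≥0∞) ^ (e g + 1) + (2⁻¹ : ℝ≥0∞) ^ (e g⁻¹ + 1))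

theorem w_symm (e : Γ → ℕ) (g : Γ) : w e g⁻¹ = w e g := by
  unfold w
  rw [inv_inv, add_comm]

theorem w_pos (e : Γ → ℕ) (g : Γ) : 0 < w e g := by
  unfold w
  refine ENNReal.mul_pos (by simp) ?_
  simp

theorem tsum_w_le (e : Γ → ℕ) (he : Function.Injective e) : ∑' g, w e g ≤ 1 := by
  unfold w
  rw [ENNReal.tsum_mul_left, ENNReal.tsum_add]
  have h1 : ∑' g : Γ, (2⁻¹ : ℝ≥0∞) ^ (e g + 1) ≤ 1 := by
    calc ∑' g : Γ, (2⁻¹ : ℝ≥0∞) ^ (e g + 1) ≤ ∑' n : ℕ, (2⁻¹ : ℝ≥0∞) ^ (n + 1) :=
          ENNReal.tsum_comp_le_tsum_of_injective he (fun n => (2⁻¹ : ℝ≥0∞) ^ (n + 1))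
      _ = 1 := by
          rw [ENNReal.tsum_geometric_add_one, ENNReal.one_sub_inv_two, inv_inv,
            ENNReal.inv_mul_cancel (by simp) (by simp)]
  have h2 : ∑' g : Γ, (2⁻¹ : ℝ≥0∞) ^ (e g⁻¹ + 1) ≤ 1 := by
    refine le_trans (le_of_eq ?_) h1
    exact (Equiv.inv Γ).tsum_eq (fun g => (2⁻¹ : ℝ≥0∞) ^ (e g + 1))
  calc 2⁻¹ * (∑' g : Γ, (2⁻¹ : ℝ≥0∞) ^ (e g + 1) + ∑' g : Γ, (2⁻¹ : ℝ≥0∞) ^ (e g⁻¹ + 1))
      ≤ 2⁻¹ * (1 + 1) := by gcongr
    _ = 1 := by rw [one_add_one_eq_two, ENNReal.inv_mul_cancel (by simp) (by simp)]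

end weights

section final

variable {Γ : Type*} [Group Γ] [Countable Γ] [Infinite Γ]

/-- For every `t > 1` there are symmetric everywhere positive weights of total mass at most one such
that independent edges, open with probability at least `1 - exp (-t f)`, percolate. -/
theorem exists_weights (t : ℝ) (ht : 1 < t) :
    ∃ f : Γ → ℝ≥0∞, (∀ g, f g⁻¹ = f g) ∧ (∀ g, 0 < f g) ∧ ∑' g, f g ≤ 1 ∧
      ∀ m : Pair Γ → Measure ℕ, (∀ e, IsProbabilityMeasure (m e)) →
        (∀ e : Pair Γ, ∀ g b : Γ, e.1 = s(g, g * b) →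
          m e {0} ≤ ENNReal.ofReal (Real.exp (-(t * (f b).toReal)))) →
        0 < Measure.infinitePi m {ω | (clu ω Set.univ {(1 : Γ)}).Infinite} := by
  classical
  have ht0 : 0 < t := by linarith
  set r : ℝ := (t + 1) / 2 with hr
  have hr1 : 1 < r := by rw [hr]; linarith
  obtain ⟨hs0, hs1, _⟩ := extinction r hr1
  set θ : ℝ := (r - 1) / r ^ 2 with hθ
  -- weights of the scales
  set c0 : ℝ := r / t with hc0
  have hc0' : c0 < 1 := by rw [hc0, div_lt_one ht0, hr]; linarith
  have hc0p : 0 < c0 := div_pos (by linarith) ht0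
  set δ : ℝ := 1 - c0 with hδ
  have hδ0 : 0 < δ := by rw [hδ]; linarith
  set κ : ℝ := δ / 8 with hκ
  have hκ0 : 0 < κ := by rw [hκ]; linarith
  obtain ⟨L, hL⟩ := exists_nat_ge (48 / (θ * t * κ))
  have hLθ : 6 ≤ θ / 2 * (t * κ * L / 4) := by
    have h1 : 48 ≤ L * (θ * t * κ) := by
      rw [div_le_iff₀ (by positivity)] at hL
      exact hL
    nlinarith
  obtain ⟨n1, hn1⟩ := eventually_small r hr1 L
  -- the first set
  obtain ⟨U, hU⟩ := Infinite.exists_subset_card_eq Γ (n1 + L + 1)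
  set B0 : Finset Γ := U ∪ U⁻¹ with hB0
  have hB0c : n1 + L + 1 ≤ B0.card := by
    rw [← hU]
    exact Finset.card_le_card Finset.subset_union_left
  have hB0s : ∀ b ∈ B0, b⁻¹ ∈ B0 := by
    intro b hb
    rw [hB0, Finset.mem_union, Finset.mem_inv'] at hb ⊢
    rw [inv_inv]
    exact hb.symm
  set n0 : ℕ := B0.card - L with hn0
  have hn0c : n0 + L = B0.card := by omega
  -- the windows
  set w0 : Win Γ := ⟨(insert 1 (B0 : Set Γ)) ^ L, first_finite B0 L, Set.one_mem_pow (Or.inl rfl)⟩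
    with hw0
  set c : ℕ → ℝ := fun n => κ * (3 / 4) ^ n with hc
  have hcp : ∀ n, 0 < c n := fun n => by simp only [hc]; positivity
  set N : ℕ → ℕ := fun n => ⌈t * c n * (2 ^ n * L)⌉₊ + 1 with hN
  have hNp : ∀ n, (0 : ℝ) < N n := fun n => by simp only [hN]; positivity
  have hNge : ∀ n, t * c n * (2 ^ n * L) ≤ N n := fun n => by
    simp only [hN]
    push_cast
    have := Nat.le_ceil (t * c n * (2 ^ n * L))
    linarith
  obtain ⟨e, he⟩ := Countable.exists_injective_nat Γ
  set f : Γ → ℝ≥0∞ := fun g => ENNReal.ofReal c0 * u B0 g +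
    (∑' n, ENNReal.ofReal (c n) * u (gens w0 N n) g) + ENNReal.ofReal (δ / 2) * w e g with hf
  have hf1 : ∑' g, f g ≤ 1 := by
    simp only [hf]
    rw [ENNReal.tsum_add, ENNReal.tsum_add, ENNReal.tsum_mul_left, ENNReal.tsum_mul_left,
      ENNReal.tsum_comm]
    have h1 : ∑' n, ∑' g, ENNReal.ofReal (c n) * u (gens w0 N n) g ≤ ENNReal.ofReal (δ / 2) := by
      calc ∑' n, ∑' g, ENNReal.ofReal (c n) * u (gens w0 N n) g
          ≤ ∑' n, ENNReal.ofReal (c n) := by
            refine ENNReal.tsum_le_tsum fun n => ?_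
            rw [ENNReal.tsum_mul_left]
            calc ENNReal.ofReal (c n) * ∑' g, u (gens w0 N n) g ≤ ENNReal.ofReal (c n) * 1 := by
                  gcongr; exact tsum_u_le _
              _ = _ := mul_one _
        _ = ENNReal.ofReal (∑' n, c n) := by
            rw [ENNReal.ofReal_tsum_of_nonneg (fun n => (hcp n).le)]
            exact (summable_geometric_of_lt_one (by norm_num) (by norm_num)).mul_left _
        _ = ENNReal.ofReal (δ / 2) := by
            congr 1
            simp only [hc]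
            rw [tsum_mul_left, tsum_geometric_of_lt_one (by norm_num) (by norm_num), hκ]
            ring
    calc ENNReal.ofReal c0 * ∑' g, u B0 g + ∑' n, ∑' g, ENNReal.ofReal (c n) * u (gens w0 N n) g
          + ENNReal.ofReal (δ / 2) * ∑' g, w e g
        ≤ ENNReal.ofReal c0 * 1 + ENNReal.ofReal (δ / 2) + ENNReal.ofReal (δ / 2) * 1 := by
          gcongr
          · exact tsum_u_le B0
          · exact tsum_w_le e he
      _ = 1 := by
          rw [mul_one, mul_one, ← ENNReal.ofReal_add (by positivity) (by positivity),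
            ← ENNReal.ofReal_add (by positivity) (by positivity), ← ENNReal.ofReal_one]
          congr 1
          rw [hδ]
          ring
  have hftop : ∀ g, f g ≠ ⊤ := fun g =>
    ne_top_of_le_ne_top ENNReal.one_ne_top ((ENNReal.le_tsum g).trans hf1)
  have hfB0 : ∀ b ∈ B0, c0 / B0.card ≤ (f b).toReal := by
    intro b hb
    have hc : (0 : ℝ) < B0.card := by
      have : 0 < B0.card := by omega
      exact_mod_cast this
    refine (ENNReal.ofReal_le_iff_le_toReal (hftop b)).mp ?_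
    have h1 : ENNReal.ofReal (c0 / B0.card) = ENNReal.ofReal c0 * u B0 b := by
      rw [eq_u B0 hb (hB0s b hb), div_eq_mul_inv, ENNReal.ofReal_mul hc0p.le,
        ENNReal.ofReal_inv_of_pos hc, ENNReal.ofReal_natCast]
    rw [h1]
    simp only [hf, add_assoc]
    exact le_self_add
  have hfN : ∀ n, ∀ b ∈ gens w0 N n, c n / (2 * N n) ≤ (f b).toReal := by
    intro n b hb
    refine (ENNReal.ofReal_le_iff_le_toReal (hftop b)).mp ?_
    have h1 : ENNReal.ofReal (c n / (2 * N n)) ≤ ENNReal.ofReal (c n) * u (gens w0 N n) b := by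
      rw [div_eq_mul_inv, ENNReal.ofReal_mul (hcp n).le, ENNReal.ofReal_inv_of_pos
        (by have := hNp n; positivity), ENNReal.ofReal_mul (p := 2) (by norm_num),
        ENNReal.ofReal_natCast]
      refine mul_le_mul_right ?_ _
      have h2 := le_u (gens w0 N n) hb
      rw [gens_card] at h2
      simpa using h2
    refine h1.trans ?_
    have h3 := ENNReal.le_tsum (f := fun n => ENNReal.ofReal (c n) * u (gens w0 N n) b) n
    refine h3.trans ?_
    simp only [hf]
    refine le_trans ?_ le_self_add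
    exact le_add_self
  refine ⟨f, ?_, ?_, hf1, ?_⟩
  · intro g
    simp only [hf, u_symm, w_symm]
  · intro g
    simp only [hf]
    refine lt_of_lt_of_le ?_ le_add_self
    exact ENNReal.mul_pos (by simpa using hδ0) (w_pos e g).ne'
  · intro m hm hmle
    have hL1 : 1 ≤ L := by
      rcases Nat.eq_zero_or_pos L with h | h
      · exfalso
        rw [h] at hL
        have : 0 < 48 / (θ * t * κ) := by positivity
        simp at hL
        linarith
      · exact h
    -- first window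
    have hq0 : 0 < Real.exp (-(r / ((n0 + L : ℕ) : ℝ))) := Real.exp_pos _
    have hq1 : Real.exp (-(r / ((n0 + L : ℕ) : ℝ))) ≤ 1 := by
      rw [Real.exp_le_one_iff]
      have : 0 ≤ r / ((n0 + L : ℕ) : ℝ) := div_nonneg (by linarith) (Nat.cast_nonneg _)
      linarith
    have hρ : (1 - ENNReal.ofReal (1 - θ) : ℝ≥0∞) = ENNReal.ofReal θ := by
      rw [← ENNReal.ofReal_one, ← ENNReal.ofReal_sub _ (by linarith)]
      congr 1
      ring
    have hfirst : Good m w0.F L (ENNReal.ofReal θ) := by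
      rw [← hρ]
      refine good_first m B0 (ENNReal.ofReal (1 - θ))
        (ENNReal.ofReal (Real.exp (-(r / ((n0 + L : ℕ) : ℝ))))) ?_ ?_ n0 L hn0c.le ?_ ?_
      · rw [← ENNReal.ofReal_one]
        exact ENNReal.ofReal_le_ofReal (by linarith)
      · rw [← ENNReal.ofReal_one]
        exact ENNReal.ofReal_le_ofReal hq1
      · intro b hb e g he
        refine (hmle e g b he).trans (ENNReal.ofReal_le_ofReal ?_)
        rw [Real.exp_le_exp]
        have h1 := mul_le_mul_of_nonneg_left (hfB0 b hb) ht0.le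
        have h2 : t * (c0 / B0.card) = r / ((n0 + L : ℕ) : ℝ) := by
          rw [hn0c, hc0]
          field_simp
        linarith
      · rw [hρ, ← ENNReal.ofReal_mul hs0.le, ← ENNReal.ofReal_add (by linarith)
          (mul_nonneg hs0.le hq0.le), ← ENNReal.ofReal_pow
          (add_nonneg (by linarith) (mul_nonneg hs0.le hq0.le))]
        refine ENNReal.ofReal_le_ofReal ?_
        have h1 := hn1 n0 (by omega)
        refine le_trans (le_of_eq ?_) h1
        congr 1
        ring
    -- all windows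
    have hall := good_all m w0 N L θ hs0.le hs1.le hfirst (fun n => t * c n / (2 * N n))
      (fun n => t * c n * (2 ^ n * L) / 4) (fun n => by
        have := hcp n; have := hNp n; positivity) (fun n => by
        have h1 := hNge n
        have h2 := hNp n
        rw [div_mul_eq_mul_div, div_le_one (by positivity)]
        linarith) (fun n => by
        have h2 := hNp n
        refine le_of_eq ?_
        field_simp
        ring) (fun n => by have := hcp n; positivity) (fun n b hb e g he => by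
        refine (hmle e g b he).trans (ENNReal.ofReal_le_ofReal ?_)
        rw [Real.exp_le_exp]
        have h1 := mul_le_mul_of_nonneg_left (hfN n b hb) ht0.le
        have h2 : t * (c n / (2 * N n)) = t * c n / (2 * N n) := by ring
        linarith) (fun n => by
        have h1 := sum_exp_le (θ / 2 * (t * κ * L / 4)) hLθ n
        refine le_trans (le_of_eq ?_) h1
        refine Finset.sum_congr rfl fun j _ => ?_
        congr 2
        simp only [hc]
        have h3 : (3 / 2 : ℝ) ^ j = (3 / 4) ^ j * 2 ^ j := by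
          rw [← mul_pow]; norm_num
        rw [h3]
        ring)
    have hfin := infinite_of_good m (fun n => (win w0 N n).F) (fun n => (win w0 N n).fin)
      (fun n => (win w0 N n).one) (fun n => 2 ^ n * L) (by
        have h1 : Filter.Tendsto (fun n : ℕ => 2 ^ n) Filter.atTop Filter.atTop :=
          tendsto_pow_atTop_atTop_of_one_lt (by norm_num)
        exact h1.atTop_mul_const' (by omega)) (ENNReal.ofReal (θ / 2)) (fun n => by
        refine (hall n).mono m le_rfl (ENNReal.ofReal_le_ofReal ?_)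
        have h1 : ∑ j ∈ Finset.range n, Real.exp (-(θ / 2 * (t * c j * (2 ^ j * L) / 4))) ≤ 1 / 2 := by
          have h1 := sum_exp_le (θ / 2 * (t * κ * L / 4)) hLθ n
          refine le_trans (le_of_eq ?_) h1
          refine Finset.sum_congr rfl fun j _ => ?_
          congr 2
          simp only [hc]
          have h3 : (3 / 2 : ℝ) ^ j = (3 / 4) ^ j * 2 ^ j := by
            rw [← mul_pow]; norm_num
          rw [h3]
          ring
        nlinarith)
    exact lt_of_lt_of_le (ENNReal.ofReal_pos.mpr (by linarith)) hfin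

end final

end Pool.Agent.Q220.Grp
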