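import Mathlib
import Pool.Agent.Q220.Grp.Clu

/-!
No percolation when the expected degree is less than one.
-/

set_option autoImplicit false
open MeasureTheory ProbabilityTheory
open scoped ENNReal NNReal BigOperators Pointwise

namespace Pool.Agent.Q220.Grp

section

variable {ι : Type*} (m : ι → Measure ℕ) [∀ i, IsProbabilityMeasure (m i)]

open Classical in
theorem Dep.indep_meas {D1 D2 : Set ι} (hd : Disjoint D1 D2) {A B : Set (ι → ℕ)} (hA : Dep D1 A)
    (hB : Dep D2 B) (mA : MeasurableSet A) (mB : MeasurableSet B) :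
    Measure.infinitePi m (A ∩ B) = Measure.infinitePi m A * Measure.infinitePi m B := by
  have hi : iIndepFun (fun (i : ι) (ω : ι → ℕ) => ω i) (Measure.infinitePi m) :=
    iIndepFun_infinitePi (X := fun _ x => x) (by fun_prop)
  have h1 := indep_iSup_of_disjoint (m := fun i => MeasurableSpace.comap (fun ω : ι → ℕ => ω i) ⊤)
    (μ := Measure.infinitePi m) (fun i => (measurable_pi_apply i).comap_le) hi.iIndep hd
  have key : ∀ (D : Set ι) (A : Set (ι → ℕ)), Dep D A → MeasurableSet A →
      MeasurableSet[⨆ i ∈ D, MeasurableSpace.comap (fun ω : ι → ℕ => ω i) ⊤] A := by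
    intro D A hA mA
    have e : A = (fun (ω : ι → ℕ) (i : ι) => if i ∈ D then ω i else 0) ⁻¹' A := by
      ext ω
      constructor
      · intro h
        exact hA ω _ (fun i hi => by simp [hi]) h
      · intro h
        exact hA _ ω (fun i hi => by simp [hi]) h
    rw [e]
    have hm : Measurable[⨆ i ∈ D, MeasurableSpace.comap (fun ω : ι → ℕ => ω i) ⊤]
        (fun (ω : ι → ℕ) (i : ι) => if i ∈ D then ω i else 0) := by
      refine @measurable_pi_lambda _ _ _ (_) _ _ fun i => ?_
      by_cases hi : i ∈ D
      · simp only [hi, if_true]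
        have h2 : MeasurableSpace.comap (fun ω : ι → ℕ => ω i) ⊤
            ≤ ⨆ i ∈ D, MeasurableSpace.comap (fun ω : ι → ℕ => ω i) ⊤ :=
          le_biSup (fun i => MeasurableSpace.comap (fun ω : ι → ℕ => ω i) ⊤) hi
        exact measurable_iff_comap_le.mpr h2
      · simp only [hi, if_false]
        exact measurable_const
    exact hm mA
  rw [Indep_iff] at h1
  exact h1 A B (key D1 A hA mA) (key D2 B hB mB)

end

section

variable {V : Type*} [Countable V] (m : Pair V → Measure ℕ) [∀ i, IsProbabilityMeasure (m i)]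

open Classical in
/-- end points of open self-avoiding paths of length `n` started at `x` and avoiding `E` -/
def S (ω : Pair V → ℕ) : ℕ → Finset V → V → Set V
  | 0, _, x => {x}
  | n + 1, E, x => {y | ∃ x', x' ∉ insert x E ∧ Opn ω x x' ∧ y ∈ S ω n (insert x E) x'}

theorem opn_measurable (x y : V) : MeasurableSet {ω : Pair V → ℕ | Opn ω x y} :=
  (dep_opn x y).measurable (Set.Subsingleton.finite fun e he e' he' =>
    Subtype.ext (he.trans he'.symm))

theorem S_measurable (n : ℕ) (E : Finset V) (x y : V) :
    MeasurableSet {ω : Pair V → ℕ | y ∈ S ω n E x} := by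
  classical
  induction n generalizing E x with
  | zero => exact MeasurableSet.const _
  | succ n ih =>
    have : {ω : Pair V → ℕ | y ∈ S ω (n + 1) E x} = ⋃ x', ⋃ _ : x' ∉ insert x E,
        ({ω | Opn ω x x'} ∩ {ω | y ∈ S ω n (insert x E) x'}) := by
      ext ω
      simp only [S, Set.mem_ofPred_eq, Set.mem_iUnion, exists_prop, Set.mem_inter_iff]
    rw [this]
    exact MeasurableSet.iUnion fun x' => MeasurableSet.iUnion fun _ =>
      (opn_measurable x x').inter (ih _ _)

theorem S_dep (n : ℕ) (E : Finset V) (x y : V) (hx : x ∉ E) :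
    Dep (pairsIn {v | v ∉ E}) {ω : Pair V → ℕ | y ∈ S ω n E x} := by
  classical
  induction n generalizing E x with
  | zero => exact fun _ _ _ h => h
  | succ n ih =>
    have : {ω : Pair V → ℕ | y ∈ S ω (n + 1) E x} = ⋃ x', ⋃ _ : x' ∉ insert x E,
        ({ω | Opn ω x x'} ∩ {ω | y ∈ S ω n (insert x E) x'}) := by
      ext ω
      simp only [S, Set.mem_ofPred_eq, Set.mem_iUnion, exists_prop, Set.mem_inter_iff]
    rw [this]
    refine Dep.iUnion fun x' => Dep.iUnion fun hx' => Dep.inter ?_ ?_
    · refine (dep_opn x x').mono ?_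
      intro e he v hv
      rw [he, Sym2.mem_iff] at hv
      rcases hv with rfl | rfl
      · exact hx
      · exact fun h => hx' (Finset.mem_insert_of_mem h)
    · refine (ih _ _ hx').mono ?_
      intro e he v hv h
      exact he v hv (Finset.mem_insert_of_mem h)

theorem S_bound (t : ℝ≥0∞)
    (ht : ∀ x : V, ∑' y, Measure.infinitePi m {ω | Opn ω x y} ≤ t) (n : ℕ) (E : Finset V) (x : V)
    (hx : x ∉ E) : ∑' y, Measure.infinitePi m {ω | y ∈ S ω n E x} ≤ t ^ n := by
  classical
  induction n generalizing E x with
  | zero =>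
    rw [pow_zero]
    have : ∀ y, Measure.infinitePi m {ω | y ∈ S ω 0 E x} = if y = x then 1 else 0 := by
      intro y
      simp only [S, Set.mem_singleton_iff]
      split_ifs with h
      · simp [h]
      · simp [h]
    simp_rw [this]
    rw [tsum_ite_eq]
  | succ n ih =>
    have h1 : ∀ y, Measure.infinitePi m {ω | y ∈ S ω (n + 1) E x}
        ≤ ∑' x', (if x' ∉ insert x E then Measure.infinitePi m {ω | Opn ω x x'} *
          Measure.infinitePi m {ω | y ∈ S ω n (insert x E) x'} else 0) := by
      intro y
      have : {ω : Pair V → ℕ | y ∈ S ω (n + 1) E x} = ⋃ x', (if x' ∉ insert x E then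
          ({ω | Opn ω x x'} ∩ {ω | y ∈ S ω n (insert x E) x'}) else ∅) := by
        ext ω
        simp only [S, Set.mem_ofPred_eq, Set.mem_iUnion]
        refine exists_congr fun x' => ?_
        split_ifs with h
        · simp [h]
        · simp [h]
      rw [this]
      refine (measure_iUnion_le _).trans (ENNReal.tsum_le_tsum fun x' => ?_)
      by_cases h : x' ∉ insert x E
      · rw [if_pos h, if_pos h]
        refine le_of_eq ?_
        refine Dep.indep_meas m (D1 := {e : Pair V | e.1 = s(x, x')})
          (D2 := pairsIn {v | v ∉ insert x E}) ?_ (dep_opn x x') (S_dep n _ _ y h)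
          (opn_measurable x x') (S_measurable n _ _ y)
        rw [Set.disjoint_left]
        intro e he he'
        exact he' x (by rw [he]; exact Sym2.mem_mk_left _ _) (Finset.mem_insert_self _ _)
      · rw [if_neg h, if_neg h, measure_empty]
    calc ∑' y, Measure.infinitePi m {ω | y ∈ S ω (n + 1) E x}
        ≤ ∑' y, ∑' x', (if x' ∉ insert x E then Measure.infinitePi m {ω | Opn ω x x'} *
          Measure.infinitePi m {ω | y ∈ S ω n (insert x E) x'} else 0) :=
          ENNReal.tsum_le_tsum h1
      _ = ∑' x', ∑' y, (if x' ∉ insert x E then Measure.infinitePi m {ω | Opn ω x x'} *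
          Measure.infinitePi m {ω | y ∈ S ω n (insert x E) x'} else 0) := ENNReal.tsum_comm
      _ ≤ ∑' x', Measure.infinitePi m {ω | Opn ω x x'} * t ^ n := by
          refine ENNReal.tsum_le_tsum fun x' => ?_
          by_cases h : x' ∉ insert x E
          · simp only [if_pos h]
            rw [ENNReal.tsum_mul_left]
            gcongr
            exact ih _ _ h
          · simp only [if_neg h, tsum_zero]
            exact zero_le
      _ ≤ t ^ (n + 1) := by
          rw [ENNReal.tsum_mul_right, pow_succ, mul_comm]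
          gcongr
          exact ht x

/-- the graph of open pairs -/
def opnGraph (ω : Pair V → ℕ) : SimpleGraph V where
  Adj x y := Opn ω x y
  symm := ⟨fun _ _ h => h.symm⟩
  loopless := ⟨fun x hx => hx.1 (Sym2.mk_isDiag_iff.2 rfl)⟩

theorem path_S (ω : Pair V → ℕ) {x y : V} (p : (opnGraph ω).Walk x y) (hp : p.IsPath) :
    ∀ E : Finset V, (∀ v ∈ p.support, v ∉ E) → y ∈ S ω p.length E x := by
  classical
  induction p with
  | nil => intro E _; exact rfl
  | cons h p ih =>
    intro E hE
    rename_i a b c
    rw [SimpleGraph.Walk.cons_isPath_iff] at hp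
    rw [SimpleGraph.Walk.length_cons]
    have hmem : ∀ v ∈ p.support, v ∉ insert a E := by
      intro v hv h'
      rw [Finset.mem_insert] at h'
      rcases h' with rfl | h'
      · exact hp.2 hv
      · exact hE v (by simp [hv]) h'
    exact ⟨b, hmem b (SimpleGraph.Walk.start_mem_support _), h, ih hp.1 _ hmem⟩

/-- almost surely all clusters are finite -/
theorem ae_finite (t : ℝ≥0∞) (ht1 : t < 1)
    (ht : ∀ x : V, ∑' y, Measure.infinitePi m {ω | Opn ω x y} ≤ t) :
    Measure.infinitePi m {ω | ∃ C : (opnGraph ω).ConnectedComponent, C.supp.Infinite} = 0 := by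
  classical
  have h1 : ∀ x : V, ∀ᵐ ω ∂(Measure.infinitePi m), {y | (opnGraph ω).Reachable x y}.Finite := by
    intro x
    have hsum : ∑' y, Measure.infinitePi m {ω | (opnGraph ω).Reachable x y} ≠ ⊤ := by
      refine ne_top_of_le_ne_top (b := ∑' n : ℕ, t ^ n) ?_ ?_
      · rw [ENNReal.tsum_geometric]
        exact ENNReal.inv_ne_top.mpr (tsub_pos_of_lt ht1).ne'
      · calc ∑' y, Measure.infinitePi m {ω | (opnGraph ω).Reachable x y}
            ≤ ∑' y, ∑' n, Measure.infinitePi m {ω | y ∈ S ω n ∅ x} := by
              refine ENNReal.tsum_le_tsum fun y => ?_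
              refine (measure_mono ?_).trans (measure_iUnion_le _)
              intro ω hω
              obtain ⟨p⟩ := hω
              rw [Set.mem_iUnion]
              exact ⟨_, path_S ω p.toPath.1 p.toPath.2 ∅ (fun v _ => Finset.notMem_empty v)⟩
          _ = ∑' n, ∑' y, Measure.infinitePi m {ω | y ∈ S ω n ∅ x} := ENNReal.tsum_comm
          _ ≤ ∑' n : ℕ, t ^ n := ENNReal.tsum_le_tsum fun n =>
              S_bound m t ht n ∅ x (Finset.notMem_empty x)
    exact ae_finite_setOfPred_mem hsum
  have h2 : ∀ᵐ ω ∂(Measure.infinitePi m), ∀ x : V, {y | (opnGraph ω).Reachable x y}.Finite :=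
    ae_all_iff.mpr h1
  rw [← nonpos_iff_eq_zero]
  refine le_trans (measure_mono ?_) (le_of_eq (ae_iff.mp h2))
  rintro ω ⟨C, hC⟩ h
  induction C using SimpleGraph.ConnectedComponent.ind with
  | h x =>
  refine hC ((h x).subset ?_)
  intro y hy
  rw [SimpleGraph.ConnectedComponent.mem_supp_iff, SimpleGraph.ConnectedComponent.eq] at hy
  exact hy.symm

end

end Pool.Agent.Q220.Grp
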