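import Mathlib
import Pool.Agent.Q220.Grp.Final
import Pool.Agent.Q220.Grp.Lower

/-!
# Generating measures on countable groups and their critical parameters

For a generating measure `μ` on an infinite countable group `Γ` let `Γ_μ(t)` be the random
multigraph with independent Poisson multiplicities of mean `t μ (g⁻¹ h)`. We prove that the infimum
over all generating measures `μ` of the critical parameters `λ_c(μ)` equals `1`.

Upper bound: for a given `t > 1` the measure is a mixture of uniform measures on finite sets. The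
first set is a very large finite symmetric set carrying mass more than `1 / t`: a comparison with a
branching process shows that with probability at least `θ(t) > 0` the cluster of a vertex has at
least `L` elements, with `L` as large as we please. The other sets `B₁, B₂, ...` have geometrically
small masses but are chosen very sparse (the sets `F b F`, `b ∈ B`, are pairwise disjoint, `F` being
the window of the previous scale), and at each scale pairs of clusters are merged, which doubles the
size of the clusters with failure probabilities of small sum.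
-/

set_option autoImplicit false

open MeasureTheory ProbabilityTheory
open scoped ENNReal NNReal

namespace Pool.Agent.Q220.Grp.Thr

/-! ### Definitions used in the statement -/

/-- A generating measure on the group `Γ`: a probability measure on `Γ` (given by its mass
function) which is symmetric and whose support generates `Γ` as a group. -/
structure GeneratingMeasure (Γ : Type*) [Group Γ] where
  /-- the probability mass function -/
  mass : PMF Γ
  /-- symmetry -/
  symm : ∀ g : Γ, mass g = mass g⁻¹
  /-- the support generates the group -/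
  gen : Subgroup.closure mass.support = ⊤

/-- The unordered pairs `{g, h}` of distinct elements of `Γ`. -/
abbrev Pair (Γ : Type*) : Type _ := {e : Sym2 Γ // ¬ e.IsDiag}

/-- The weight `μ (g⁻¹ h)` of the pair `{g, h}`. -/
noncomputable def weight {Γ : Type*} [Group Γ] (μ : GeneratingMeasure Γ) : Sym2 Γ → ℝ≥0 :=
  Sym2.lift ⟨fun g h => (μ.mass (g⁻¹ * h)).toNNReal, fun g h => by
    show (μ.mass (g⁻¹ * h)).toNNReal = (μ.mass (h⁻¹ * g)).toNNReal
    rw [μ.symm (g⁻¹ * h), mul_inv_rev, inv_inv]⟩

/-- The law of the random multigraph `Γ_μ(t)`: the multiplicities of the pairs are independent,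
and the multiplicity of `{g, h}` is Poisson with mean `t μ (g⁻¹ h)`. -/
noncomputable def law {Γ : Type*} [Group Γ] (μ : GeneratingMeasure Γ) (t : ℝ≥0) :
    Measure (Pair Γ → ℕ) :=
  Measure.infinitePi fun e : Pair Γ => poissonMeasure (t * weight μ e)

/-- The graph obtained from the multiplicities `ω` by merging parallel edges: two distinct elements
are joined when the multiplicity of the pair is positive. -/
def openGraph {Γ : Type*} (ω : Pair Γ → ℕ) : SimpleGraph Γ where
  Adj g h := ∃ hne : ¬ (s(g, h)).IsDiag, 0 < ω ⟨s(g, h), hne⟩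
  symm := ⟨fun g h hgh => by
    obtain ⟨hne, hω⟩ := hgh
    have e : (s(h, g) : Sym2 Γ) = s(g, h) := Sym2.eq_swap
    refine ⟨by rwa [e], ?_⟩
    have : (⟨s(h, g), by rwa [e]⟩ : Pair Γ) = ⟨s(g, h), hne⟩ := Subtype.ext e
    rw [this]; exact hω⟩
  loopless := ⟨fun g hg => hg.1 (Sym2.mk_isDiag_iff.2 rfl)⟩

/-- The graph has an infinite connected component. -/
def HasInfiniteComponent {V : Type*} (G : SimpleGraph V) : Prop :=
  ∃ C : G.ConnectedComponent, C.supp.Infinite

/-- The critical parameter `λ_c(μ)`: the supremum in `[0, ∞]` of the `t > 0` for which `Γ_μ(t)`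
has an infinite connected component with probability zero. -/
noncomputable def criticalParameter {Γ : Type*} [Group Γ] (μ : GeneratingMeasure Γ) : ℝ≥0∞ :=
  sSup {s : ℝ≥0∞ | ∃ t : ℝ≥0, 0 < t ∧
    law μ t {ω | HasInfiniteComponent (openGraph ω)} = 0 ∧ s = (t : ℝ≥0∞)}

/-! ### Proofs -/

open Pool.Agent.Q220.Grp

section

variable {Γ : Type*} [Group Γ]

theorem poisson_zero (r : ℝ≥0) : poissonMeasure r {0} = ENNReal.ofReal (Real.exp (-r)) := by
  rw [poissonMeasure_singleton]
  simp

theorem weight_mk (μ : GeneratingMeasure Γ) (g h : Γ) :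
    weight μ s(g, h) = (μ.mass (g⁻¹ * h)).toNNReal := rfl

theorem infinite_component (ω : Pair Γ → ℕ) (h : (clu ω Set.univ {(1 : Γ)}).Infinite) :
    HasInfiniteComponent (openGraph ω) := by
  refine ⟨(openGraph ω).connectedComponentMk 1, h.mono ?_⟩
  rintro y ⟨x, hx, hxy⟩
  rw [Set.mem_singleton_iff] at hx
  subst hx
  rw [SimpleGraph.ConnectedComponent.mem_supp_iff, SimpleGraph.ConnectedComponent.eq]
  refine SimpleGraph.Reachable.symm ?_
  rw [SimpleGraph.reachable_iff_reflTransGen]
  exact Relation.ReflTransGen.mono (fun _ _ h => h.2.2) _ _ hxy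

/-- existence of good measures -/
theorem exists_measure [Countable Γ] [Infinite Γ] (t : ℝ≥0) (ht : 1 < t) :
    ∃ μ : GeneratingMeasure Γ, criticalParameter μ ≤ t := by
  obtain ⟨f, hsymm, hpos, hsum, hperc⟩ := exists_weights (Γ := Γ) (t : ℝ) (by exact_mod_cast ht)
  have h0 : ∑' g, f g ≠ 0 := by
    intro h
    rw [ENNReal.tsum_eq_zero] at h
    exact (hpos 1).ne' (h 1)
  have h1 : ∑' g, f g ≠ ⊤ := ne_top_of_le_ne_top ENNReal.one_ne_top hsum
  set p : PMF Γ := PMF.normalize f h0 h1 with hp
  have hpf : ∀ g, p g = f g * (∑' g, f g)⁻¹ := fun g => PMF.normalize_apply _ _ g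
  have hle : ∀ g, f g ≤ p g := by
    intro g
    rw [hpf]
    calc f g = f g * 1 := (mul_one _).symm
      _ ≤ _ := by gcongr; exact ENNReal.one_le_inv.mpr hsum
  let μ : GeneratingMeasure Γ :=
    { mass := p
      symm := fun g => by rw [hpf, hpf, hsymm]
      gen := by
        have : p.support = Set.univ := by
          ext g
          simp only [PMF.mem_support_iff, Set.mem_univ, iff_true]
          exact (lt_of_lt_of_le (hpos g) (hle g)).ne'
        rw [this, Subgroup.closure_univ] }
  refine ⟨μ, sSup_le ?_⟩
  rintro _ ⟨t', ht', h, rfl⟩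
  by_contra hlt
  push Not at hlt
  have hlt' : t ≤ t' := by exact_mod_cast hlt.le
  have h2 := hperc (fun e : Pair Γ => poissonMeasure (t' * weight μ e)) (fun e => inferInstance)
    (by
      rintro ⟨e, hne⟩ g b he
      simp only at he
      subst he
      rw [poisson_zero]
      refine ENNReal.ofReal_le_ofReal (Real.exp_le_exp.mpr (neg_le_neg ?_))
      show (t : ℝ) * (f b).toReal ≤ ((t' * weight μ s(g, g * b) : ℝ≥0) : ℝ)
      rw [weight_mk, inv_mul_cancel_left, NNReal.coe_mul]
      have h3 : (f b).toReal ≤ ((μ.mass b).toNNReal : ℝ) := by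
        show (f b).toReal ≤ (p b).toReal
        exact ENNReal.toReal_mono (p.apply_ne_top b) (hle b)
      exact mul_le_mul (by exact_mod_cast hlt') h3 ENNReal.toReal_nonneg (NNReal.coe_nonneg _))
  have h4 : law μ t' {ω | (clu ω Set.univ {(1 : Γ)}).Infinite} = 0 :=
    measure_mono_null (fun ω hω => infinite_component ω hω) h
  exact h2.ne' h4

/-- the lower bound -/
theorem one_le_critical [Countable Γ] (μ : GeneratingMeasure Γ) : 1 ≤ criticalParameter μ := by
  refine le_of_forall_lt fun a ha => ?_
  obtain ⟨b, hab, hb1⟩ := exists_between ha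
  have hbt : b ≠ ⊤ := ne_top_of_lt hb1
  lift b to ℝ≥0 using hbt
  refine lt_of_lt_of_le hab (le_sSup ⟨b, ?_, ?_, rfl⟩)
  · have : (0 : ℝ≥0∞) < b := lt_of_le_of_lt (by simp) hab
    exact_mod_cast this
  · refine ae_finite (fun e : Pair Γ => poissonMeasure (b * weight μ e)) (b : ℝ≥0∞) hb1 ?_
    intro x
    have h1 : ∀ y : Γ, Measure.infinitePi (fun e : Pair Γ => poissonMeasure (b * weight μ e))
        {ω | Opn ω x y} ≤ b * μ.mass (x⁻¹ * y) := by
      intro y
      by_cases hne : (s(x, y)).IsDiag
      · have : {ω : Pair Γ → ℕ | Opn ω x y} = ∅ := by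
          rw [Set.eq_empty_iff_forall_notMem]
          rintro ω ⟨h, _⟩
          exact h hne
        rw [this, measure_empty]
        exact zero_le
      · have e1 : {ω : Pair Γ → ℕ | Opn ω x y}
            = (fun ω : Pair Γ → ℕ => ω ⟨s(x, y), hne⟩) ⁻¹' {0}ᶜ := by
          ext ω
          simp only [Set.mem_ofPred_eq, Set.mem_preimage, Set.mem_compl_iff,
            Set.mem_singleton_iff, Opn, Nat.pos_iff_ne_zero]
          exact ⟨fun ⟨_, h⟩ => h, fun h => ⟨hne, h⟩⟩
        have hmp := measurePreserving_eval_infinitePi
          (fun e : Pair Γ => poissonMeasure (b * weight μ e)) ⟨s(x, y), hne⟩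
        rw [e1, hmp.measure_preimage (MeasurableSet.singleton _).compl.nullMeasurableSet,
          measure_compl (MeasurableSet.singleton _) (measure_ne_top _ _), measure_univ,
          poisson_zero, ← ENNReal.ofReal_one, ← ENNReal.ofReal_sub _ (Real.exp_pos _).le]
        have h5 : (b : ℝ≥0∞) * μ.mass (x⁻¹ * y)
            = ENNReal.ofReal ((b * weight μ s(x, y) : ℝ≥0) : ℝ) := by
          rw [ENNReal.ofReal_coe_nnreal, weight_mk, ENNReal.coe_mul,
            ENNReal.coe_toNNReal (μ.mass.apply_ne_top _)]
        rw [h5]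
        refine ENNReal.ofReal_le_ofReal ?_
        have := Real.add_one_le_exp (-((b * weight μ s(x, y) : ℝ≥0) : ℝ))
        linarith
    refine (ENNReal.tsum_le_tsum h1).trans (le_of_eq ?_)
    rw [ENNReal.tsum_mul_left]
    have h2 : ∑' y : Γ, μ.mass (x⁻¹ * y) = 1 := by
      rw [← μ.mass.tsum_coe]
      exact (Equiv.mulLeft x⁻¹).tsum_eq (fun y => μ.mass y)
    rw [h2, mul_one]

end

end Pool.Agent.Q220.Grp.Thr
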